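import Pool.Agent.SRC.Defs

/-! Cubes, half cubes, pieces and plans (definitions of block (GL)). -/

set_option autoImplicit false

namespace Pool.Agent.Glu

open Finset Pool.Agent.SRC

/-- Cube of radius `r` round `z`. -/
noncomputable def cube {d : ℕ} (z : Vx d) (r : ℤ) : Finset (Vx d) :=
  Finset.Icc (fun i => z i - r) (fun i => z i + r)

/-- Half cube to the right of its centre in direction `k`. -/
noncomputable def hcube {d : ℕ} (z : Vx d) (k : Fin d) (r : ℤ) : Finset (Vx d) :=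
  (cube z r).filter (fun y => z k ≤ y k)

theorem mem_cube {d : ℕ} (z : Vx d) (r : ℤ) (y : Vx d) : y ∈ cube z r ↔ ∀ i, |y i - z i| ≤ r := by
  unfold cube
  rw [Finset.mem_Icc, Pi.le_def, Pi.le_def]
  constructor
  · rintro ⟨h1, h2⟩ i
    have := h1 i
    have := h2 i
    rw [abs_le]
    constructor <;> linarith
  · intro h
    constructor <;> intro i <;> have := abs_le.mp (h i) <;> linarith [this.1, this.2]

theorem mem_hcube {d : ℕ} (z : Vx d) (k : Fin d) (r : ℤ) (y : Vx d) :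
    y ∈ hcube z k r ↔ y ∈ cube z r ∧ z k ≤ y k := by
  unfold hcube
  rw [Finset.mem_filter]

/-- A piece: centre, direction, laterally reflected or not. -/
structure Pc (d : ℕ) where
  z : Vx d
  k : Fin d
  s : Bool

/-- Sign. -/
def sg {d : ℕ} (s : Bool) (u : Vx d) : Vx d := if s then -u else u

/-- Start point of a piece. -/
def Pc.st {d : ℕ} (w : Fin d → Vx d) (p : Pc d) : Vx d := p.z + sg p.s (w p.k)

/-- End point of a piece. -/
def Pc.en {d : ℕ} (w' : Fin d → Vx d) (R : ℕ) (p : Pc d) : Vx d :=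
  p.z + (R : ℤ) • uv p.k + sg p.s (w' p.k)

/-- A plan: end points, list of pieces, edges to open. -/
structure Plan (d : ℕ) where
  a : Vx d
  b : Vx d
  ps : List (Pc d)
  J : Finset (Ed d)

theorem uv_self {d : ℕ} (k : Fin d) : (uv k : Vx d) k = 1 := by
  unfold uv
  exact Pi.single_eq_same k 1

theorem uv_ne {d : ℕ} {k j : Fin d} (h : j ≠ k) : (uv k : Vx d) j = 0 := by
  unfold uv
  exact Pi.single_eq_of_ne h 1

/-- Number of points of a cube. -/
theorem card_cube {d : ℕ} (v : Vx d) (r : ℕ) : (cube v (r : ℤ)).card = (2 * r + 1) ^ d := by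
  unfold cube
  rw [Pi.card_Icc]
  have : ∀ i ∈ (Finset.univ : Finset (Fin d)),
      (Finset.Icc (v i - (r : ℤ)) (v i + r)).card = 2 * r + 1 := by
    intro i _
    rw [Int.card_Icc]
    omega
  rw [Finset.prod_congr rfl this, Finset.prod_const, Finset.card_univ, Fintype.card_fin]

/-- (FAC) for the shell between the cubes of radius `R` and `R + t`, `t ≥ κ R`: sources `bd y` with
`y` inside the inner cube, sources `S` on the outer faces. -/
def FACC (d : ℕ) (x : ℝ) : Prop :=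
  ∀ κ : ℝ, 0 < κ → ∀ ε : ℝ, 0 < ε → ∃ R0 : ℕ, ∀ R t : ℕ, R0 ≤ R → κ * R ≤ t →
    ∀ y : Finset (Ed d), y ⊆ edg (cube (0 : Vx d) (R : ℤ)) → ∀ S : Vx d → ZMod 2,
    (∀ v, S v ≠ 0 → v ∈ cube (0 : Vx d) ((R : ℤ) + t) ∧ ∃ i, |v i| = (R : ℤ) + t) →
    ZZ (loopM x) (edg (cube (0 : Vx d) ((R : ℤ) + t)) \ edg (cube (0 : Vx d) (R : ℤ))) (bd y + S) *
      ZZ (loopM x) (edg (cube (0 : Vx d) ((R : ℤ) + t)) \ edg (cube (0 : Vx d) (R : ℤ))) 0 ≤
    (1 + ε) *
      (ZZ (loopM x) (edg (cube (0 : Vx d) ((R : ℤ) + t)) \ edg (cube (0 : Vx d) (R : ℤ))) (bd y) *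
      ZZ (loopM x) (edg (cube (0 : Vx d) ((R : ℤ) + t)) \ edg (cube (0 : Vx d) (R : ℤ))) S)

/-- One arm: in the sourceless model in the cube of radius `R + t`, `t ≥ κ R`, the origin is joined
to a face of the cube of radius `R`, inside this cube, with probability at least `c R^(-d)`. -/
def ARM (d : ℕ) (x : ℝ) : Prop :=
  ∀ κ : ℝ, 0 < κ → ∃ c : ℝ, 0 < c ∧ ∃ R0 : ℕ, ∀ R t : ℕ, R0 ≤ R → κ * R ≤ t →
    c * ((R : ℝ) ^ d)⁻¹ * ZZ (loopM x) (edg (cube (0 : Vx d) ((R : ℤ) + t))) 0 ≤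
      EL (loopM x) (edg (cube (0 : Vx d) ((R : ℤ) + t))) 0 (fun η =>
        ind (∃ v : Vx d, (∃ i, |v i| = (R : ℤ)) ∧
          conn (↑η ∩ ↑(edg (cube (0 : Vx d) (R : ℤ)))) 0 v))

end Pool.Agent.Glu
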