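import Pool.Agent.SRC.Block

/-! Block (GL): the event that the box is free of the two clusters. -/

set_option autoImplicit false

namespace Pool.Agent.Glu

open Finset Pool.Agent.SRC

/-- `u` is joined to sup-distance at least `n` from `0`. -/
def BB {d : ℕ} (n : ℤ) (Y : Set (Ed d)) (u : Vx d) : Prop :=
  ∃ z, (∃ i, n ≤ |z i|) ∧ conn Y u z

/-- `0` is not joined to distance `n`, `a` is joined to `0`, `b` is joined to distance `n`, and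
neither of the two clusters meets `W`. -/
def GG {d : ℕ} (n : ℤ) (W : Set (Vx d)) (a b : Vx d) (Y : Set (Ed d)) : Prop :=
  ¬ Far n Y 0 ∧ conn Y 0 a ∧ BB n Y b ∧ ∀ u ∈ W, ¬ conn Y 0 u ∧ ¬ BB n Y u

theorem conn_off {d : ℕ} (Y D : Set (Ed d)) (W : Set (Vx d)) (hD : ∀ e ∈ D, e.1 ∈ W ∧ tip e ∈ W)
    (u : Vx d) (hu : ∀ w ∈ W, ¬ conn (Y \ D) u w) (v : Vx d) (h : conn Y u v) :
    conn (Y \ D) u v := by
  unfold conn at h
  induction h with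
  | refl => exact conn_refl _ _
  | @tail y z _ h2 ih =>
    refine Relation.ReflTransGen.tail ih ?_
    obtain ⟨i, hi⟩ := h2
    refine ⟨i, ?_⟩
    rcases hi with ⟨h3, h4⟩ | ⟨h3, h4⟩
    · exact Or.inl ⟨⟨h3, fun h5 => hu _ (hD _ h5).1 ih⟩, h4⟩
    · refine Or.inr ⟨⟨h3, fun h5 => hu _ (hD _ h5).2 ?_⟩, h4⟩
      have h6 : tip (z, i) = y := h4.symm
      rw [h6]
      exact ih

theorem GG_off {d : ℕ} (n : ℤ) (W : Set (Vx d)) (a b : Vx d) (Y D : Set (Ed d))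
    (hD : ∀ e ∈ D, e.1 ∈ W ∧ tip e ∈ W) : GG n W a b Y ↔ GG n W a b (Y \ D) := by
  have hsub : Y \ D ⊆ Y := Set.diff_subset
  constructor
  · rintro ⟨h1, h2, h3, h4⟩
    have h5 : ∀ w ∈ W, ¬ conn (Y \ D) 0 w := fun w hw h => (h4 w hw).1 (conn_mono hsub h)
    refine ⟨?_, conn_off Y D W hD 0 h5 a h2, ?_, ?_⟩
    · rintro ⟨v, h6, h7⟩
      exact h1 ⟨v, conn_mono hsub h6, h7⟩
    · obtain ⟨z, hz, h6⟩ := h3
      refine ⟨z, hz, ?_⟩
      refine conn_symm (conn_off Y D W hD z (fun w hw h => (h4 w hw).2 ⟨z, hz, ?_⟩) b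
        (conn_symm h6))
      exact conn_symm (conn_mono hsub h)
    · rintro u hu
      refine ⟨h5 u hu, ?_⟩
      rintro ⟨z, hz, h6⟩
      exact (h4 u hu).2 ⟨z, hz, conn_mono hsub h6⟩
  · rintro ⟨h1, h2, h3, h4⟩
    have h5 : ∀ w ∈ W, ¬ conn (Y \ D) 0 w := fun w hw => (h4 w hw).1
    have h6 : ∀ v, conn Y 0 v → conn (Y \ D) 0 v := fun v hv => conn_off Y D W hD 0 h5 v hv
    have h7 : ∀ z, (∃ i, n ≤ |z i|) → ∀ v, conn Y z v → conn (Y \ D) z v := fun z hz v hv =>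
      conn_off Y D W hD z (fun w hw h => (h4 w hw).2 ⟨z, hz, conn_symm h⟩) v hv
    refine ⟨?_, conn_mono hsub h2, ?_, ?_⟩
    · rintro ⟨v, h8, h9⟩
      exact h1 ⟨v, h6 v h8, h9⟩
    · obtain ⟨z, hz, h8⟩ := h3
      exact ⟨z, hz, conn_mono hsub h8⟩
    · intro u hu
      refine ⟨fun h => h5 u hu (h6 u h), ?_⟩
      rintro ⟨z, hz, h8⟩
      exact (h4 u hu).2 ⟨z, hz, conn_symm (h7 z hz u (conn_symm h8))⟩

theorem GG_far {d : ℕ} (n : ℤ) (W : Set (Vx d)) (a b : Vx d) (Y Y' : Set (Ed d))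
    (hY : Y ⊆ Y') (h : GG n W a b Y) (hc : conn Y' a b) : Far n Y' 0 := by
  obtain ⟨-, h2, ⟨z, ⟨i, hz⟩, h3⟩, -⟩ := h
  refine ⟨z, conn_trans (conn_mono hY h2) (conn_trans hc (conn_mono hY h3)), i, ?_⟩
  simpa using hz

end Pool.Agent.Glu
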