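import Pool.Agent.Inv.Theta
import Pool.Agent.Glu.Cube
import Pool.Agent.Glu.Expl

/-! Block (GL): statements (input `Cross`, output `GL`). -/

set_option autoImplicit false

namespace Pool.Agent.Glu

open Finset Pool.Agent.SRC Pool.Agent.Inv

/-- `0` is not joined to distance `n`, and the cluster of `0` and the set of vertices joined to
distance `n` both meet the cube of radius `m` round `v`. -/
def Em {d : ℕ} (n : ℤ) (v : Vx d) (m : ℕ) (Y : Set (Ed d)) : Prop :=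
  ¬ Far n Y 0 ∧ (∃ u, u ∈ cube v m ∧ conn Y 0 u) ∧ ∃ u, u ∈ cube v m ∧ BB n Y u

/-- The sources `S` vanish in the interior of the cube of radius `r` round `z`. -/
def Outer {d : ℕ} (z : Vx d) (r : ℤ) (S : Vx d → ZMod 2) : Prop :=
  ∀ y : Vx d, (∀ i, |y i - z i| < r) → S y = 0

/-- The crossing estimate for one piece: for all sources on the boundary of the big cube. -/
def CrossAt {d : ℕ} (x : ℝ) (R t : ℕ) (p : ℝ) (w w' : Fin d → Vx d) : Prop :=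
  ∀ (q : Pc d) (S : Vx d → ZMod 2), Outer q.z ((R : ℤ) + t) S →
    p * ZZ (loopM x) (edg (cube q.z ((R : ℤ) + t))) S ≤
      EL (loopM x) (edg (cube q.z ((R : ℤ) + t))) S
        (fun η => ind (conn (↑(η ∩ edg (hcube q.z q.k (R : ℤ))) : Set (Ed d))
          (q.st w) (q.en w' R)))

/-- The crossing estimate at all scales. -/
def Cross (d : ℕ) (x : ℝ) : Prop :=
  ∃ C1 : ℕ, ∀ κ : ℝ, 0 < κ → κ ≤ 1 → ∃ c : ℝ, 0 < c ∧ ∃ R0 : ℕ, ∀ R t : ℕ, R0 ≤ R → κ * R ≤ t →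
    t ≤ R → ∃ w w' : Fin d → Vx d, (∀ k, w k k = 0 ∧ ∀ j, |w k j| ≤ (R : ℤ)) ∧
      (∀ k, w' k k = 0 ∧ ∀ j, |w' k j| ≤ (R : ℤ)) ∧
      CrossAt x R t (c * ((R : ℝ) + 1)⁻¹ ^ C1) w w'

/-- The gluing lemma. -/
def Gluing (d : ℕ) (x : ℝ) : Prop :=
  ∀ a δ : ℝ, 0 < a → a < 1 → 0 < δ → ∃ C : ℕ, ∀ s : ℝ, a ≤ s → s ≤ 1 →
    ∀ (n m : ℕ) (v : Vx d) (N : ℕ), (∀ i, |v i| + m + C ≤ N) →
      PE x s (boxE d N) (fun η b => ind (Em n v m (↑(η ∪ b) : Set (Ed d)))) ≤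
        C * Real.exp (δ * m) * ∑ e ∈ edg (cube v ((m : ℤ) + C)), PE x s (boxE d N) (pv n e)

end Pool.Agent.Glu
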