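import Pool.Agent.SRC.Bern

/-! Block (GL), file 2: product lower bound for events in boxes, given an event which does not
depend on the edges of the boxes. -/

set_option autoImplicit false

namespace Pool.Agent.Glu

open Finset Pool.Agent.SRC

/-- One box. -/
theorem EL_step {d : ℕ} (m : Mdl) (ha : 0 ≤ m.a) (hb : 0 ≤ m.b) (E U : Finset (Ed d))
    (hU : U ⊆ E) (O H : Finset (Ed d) → ℝ) (hO : ∀ η, 0 ≤ O η) (hOU : ∀ η, O η = O (η \ U))
    (p : ℝ) (A : Vx d → ZMod 2) (h : ∀ ξ, ξ ⊆ E \ U →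
      p * ZZ m U (A + m.s • bd ξ) ≤ EL m U (A + m.s • bd ξ) H) :
    p * EL m E A O ≤ EL m E A (fun η => O η * H (η ∩ U)) := by
  classical
  have h1 : (E \ U) ∪ U = E := Finset.sdiff_union_of_subset hU
  have h2 : Disjoint (E \ U) U := Finset.sdiff_disjoint
  have h3 := EL_union m (E \ U) U h2 A O
  have h4 := EL_union m (E \ U) U h2 A (fun η => O η * H (η ∩ U))
  rw [h1] at h3 h4
  rw [h3, h4, Finset.mul_sum]
  refine Finset.sum_le_sum fun η hη => ?_
  rw [Finset.mem_powerset] at hη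
  have h5 : ∀ ζ, ζ ⊆ U → (η ∪ ζ) \ U = η := by
    intro ζ hζ
    ext e
    rw [Finset.mem_sdiff, Finset.mem_union]
    constructor
    · rintro ⟨h6 | h6, h7⟩
      · exact h6
      · exact absurd (hζ h6) h7
    · intro h6
      exact ⟨Or.inl h6, (Finset.mem_sdiff.mp (hη h6)).2⟩
  have h6 : ∀ ζ, ζ ⊆ U → (η ∪ ζ) ∩ U = ζ := by
    intro ζ hζ
    ext e
    rw [Finset.mem_inter, Finset.mem_union]
    constructor
    · rintro ⟨h7 | h7, h8⟩
      · exact absurd h8 (Finset.mem_sdiff.mp (hη h7)).2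
      · exact h7
    · intro h7
      exact ⟨Or.inr h7, hζ h7⟩
  have h7 : EL m U (A + m.s • bd η) (fun ζ => O (η ∪ ζ)) =
      O η * ZZ m U (A + m.s • bd η) := by
    rw [← EL_const]
    exact EL_congr _ _ _ _ _ fun ζ hζ => by rw [hOU, h5 ζ hζ]
  have h8 : EL m U (A + m.s • bd η) (fun ζ => O (η ∪ ζ) * H ((η ∪ ζ) ∩ U)) =
      O η * EL m U (A + m.s • bd η) H := by
    rw [← EL_smul]
    exact EL_congr _ _ _ _ _ fun ζ hζ => by rw [hOU, h5 ζ hζ, h6 ζ hζ]
  rw [h7, h8]
  have h9 := mul_le_mul_of_nonneg_left (h η hη) (hO η)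
  have h10 : 0 ≤ m.a ^ η.card * m.b ^ ((E \ U) \ η).card :=
    mul_nonneg (pow_nonneg ha _) (pow_nonneg hb _)
  have h11 := mul_le_mul_of_nonneg_left h9 h10
  linarith

/-- A list of boxes `U i` with cores `V i`; the cores of later boxes do not meet earlier boxes. -/
theorem EL_chain {d : ℕ} {ι : Type*} (m : Mdl) (ha : 0 ≤ m.a) (hb : 0 ≤ m.b)
    (E : Finset (Ed d)) (U V : ι → Finset (Ed d)) (H : ι → Finset (Ed d) → ℝ)
    (hH : ∀ i η, 0 ≤ H i η) (p : ℝ) (hp : 0 ≤ p) (A : Vx d → ZMod 2) (l : List ι)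
    (hU : ∀ i ∈ l, U i ⊆ E) (hV : ∀ i ∈ l, V i ⊆ U i)
    (hd : l.Pairwise fun i j => Disjoint (V j) (U i))
    (h : ∀ i ∈ l, ∀ ξ, ξ ⊆ E \ U i → p * ZZ m (U i) (A + m.s • bd ξ) ≤
      EL m (U i) (A + m.s • bd ξ) (fun ζ => H i (ζ ∩ V i)))
    (O : Finset (Ed d) → ℝ) (hO : ∀ η, 0 ≤ O η) (hOU : ∀ i ∈ l, ∀ η, O η = O (η \ U i)) :
    p ^ l.length * EL m E A O ≤
      EL m E A (fun η => O η * (l.map fun i => H i (η ∩ V i)).prod) := by
  classical
  induction l with
  | nil => simp
  | cons i l ih =>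
    rw [List.pairwise_cons] at hd
    have h1 := ih (fun j hj => hU j (List.mem_cons_of_mem i hj))
      (fun j hj => hV j (List.mem_cons_of_mem i hj)) hd.2
      (fun j hj => h j (List.mem_cons_of_mem i hj))
      (fun j hj => hOU j (List.mem_cons_of_mem i hj))
    have hi : i ∈ i :: l := List.mem_cons_self
    have hnn : ∀ η, 0 ≤ (l.map fun j => H j (η ∩ V j)).prod := by
      intro η
      refine List.prod_nonneg fun y hy => ?_
      rw [List.mem_map] at hy
      obtain ⟨j, -, rfl⟩ := hy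
      exact hH j _
    have h2 := EL_step m ha hb E (U i) (hU i hi)
      (fun η => O η * (l.map fun j => H j (η ∩ V j)).prod) (fun ζ => H i (ζ ∩ V i))
      (fun η => mul_nonneg (hO η) (hnn η))
      (fun η => by
        show O η * (l.map fun j => H j (η ∩ V j)).prod =
          O (η \ U i) * (l.map fun j => H j ((η \ U i) ∩ V j)).prod
        rw [← hOU i hi η]
        congr 2
        refine List.map_congr_left fun j hj => ?_
        congr 1
        ext e
        rw [Finset.mem_inter, Finset.mem_inter, Finset.mem_sdiff]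
        constructor
        · rintro ⟨h3, h4⟩
          exact ⟨⟨h3, fun h5 => Finset.disjoint_left.mp (hd.1 j hj) h4 h5⟩, h4⟩
        · rintro ⟨⟨h3, -⟩, h4⟩
          exact ⟨h3, h4⟩) p A (h i hi)
    have h3 : EL m E A (fun η => O η * (l.map fun j => H j (η ∩ V j)).prod *
        H i (η ∩ U i ∩ V i)) =
        EL m E A (fun η => O η * ((i :: l).map fun j => H j (η ∩ V j)).prod) := by
      refine EL_congr _ _ _ _ _ fun η _ => ?_
      rw [List.map_cons, List.prod_cons]
      have h4 : η ∩ U i ∩ V i = η ∩ V i := by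
        ext e
        rw [Finset.mem_inter, Finset.mem_inter, Finset.mem_inter]
        constructor
        · rintro ⟨⟨h5, -⟩, h6⟩
          exact ⟨h5, h6⟩
        · rintro ⟨h5, h6⟩
          exact ⟨⟨h5, hV i hi h6⟩, h6⟩
      rw [h4]
      ring
    rw [← h3, List.length_cons, pow_succ']
    calc p * p ^ l.length * EL m E A O = p * (p ^ l.length * EL m E A O) := by ring
      _ ≤ p * EL m E A (fun η => O η * (l.map fun j => H j (η ∩ V j)).prod) :=
        mul_le_mul_of_nonneg_left h1 hp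
      _ ≤ _ := h2

/-- Product of indicators over a list. -/
theorem prod_ind {ι : Type*} (l : List ι) (P : ι → Prop) :
    (l.map fun i => ind (P i)).prod = ind (∀ i ∈ l, P i) := by
  induction l with
  | nil =>
    rw [List.map_nil, List.prod_nil, ind_true]
    intro i hi
    exact absurd hi List.not_mem_nil
  | cons i l ih =>
    rw [List.map_cons, List.prod_cons, ih, ← ind_and]
    exact ind_congr List.forall_mem_cons.symm

end Pool.Agent.Glu
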