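import Pool.Agent.Glu.Sym
import Pool.Agent.Glu.Stmt
import Pool.Agent.Rm.Rm

/-! Block (GL): a crossing of a half cube between two prescribed points, for all sources. -/

set_option autoImplicit false

namespace Pool.Agent.Glu

open Finset Pool.Agent.SRC

/-! ### Last visit -/

/-- The part of a connection after the last visit of `{g = 0}`. -/
theorem last_visit {d : ℕ} (S : Finset (Vx d)) (g : Vx d → ℤ)
    (hg : ∀ v i, g (v + uv i) ≤ g v + 1 ∧ g v ≤ g (v + uv i) + 1) (ω : Set (Ed d))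
    (hω : ω ⊆ ↑(edg S)) (u v : Vx d) (hu : u ∈ S) (hgu : g u = 0) (h : conn ω u v)
    (hv : 0 ≤ g v) : ∃ u0 ∈ S, g u0 = 0 ∧ v ∈ S ∧
      conn (ω ∩ ↑(edg (S.filter (fun y => 0 ≤ g y)))) u0 v := by
  classical
  unfold conn at h
  induction h with
  | refl => exact ⟨u, hu, hgu, hu, Relation.ReflTransGen.refl⟩
  | @tail a b h1 h2 ih =>
    obtain ⟨i, hi⟩ := h2
    have key : a ∈ S ∧ b ∈ S ∧ (g b ≤ g a + 1) := by
      rcases hi with ⟨he, hb⟩ | ⟨he, hb⟩
      · have := hω he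
        rw [Finset.mem_coe, mem_edg] at this
        unfold tip at this
        simp only [] at this
        subst hb
        exact ⟨this.1, this.2, (hg a i).1⟩
      · have := hω he
        rw [Finset.mem_coe, mem_edg] at this
        unfold tip at this
        simp only [] at this
        subst hb
        exact ⟨this.2, this.1, (hg b i).2⟩
    by_cases hb0 : g b = 0
    · exact ⟨b, key.2.1, hb0, key.2.1, Relation.ReflTransGen.refl⟩
    · have hb1 : 1 ≤ g b := by omega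
      have ha0 : 0 ≤ g a := by linarith [key.2.2]
      obtain ⟨u0, h3, h4, -, h5⟩ := ih ha0
      refine ⟨u0, h3, h4, key.2.1, Relation.ReflTransGen.tail h5 ⟨i, ?_⟩⟩
      have ma : a ∈ S.filter (fun y => 0 ≤ g y) := Finset.mem_filter.mpr ⟨key.1, ha0⟩
      have mb : b ∈ S.filter (fun y => 0 ≤ g y) := Finset.mem_filter.mpr ⟨key.2.1, hv⟩
      rcases hi with ⟨he, hb⟩ | ⟨he, hb⟩
      · refine Or.inl ⟨⟨he, ?_⟩, hb⟩
        rw [Finset.mem_coe, mem_edg]
        refine ⟨ma, ?_⟩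
        show a + uv i ∈ _
        rw [← hb]
        exact mb
      · refine Or.inr ⟨⟨he, ?_⟩, hb⟩
        rw [Finset.mem_coe, mem_edg]
        refine ⟨mb, ?_⟩
        show b + uv i ∈ _
        rw [← hb]
        exact ma

/-- Half cube with a sign. -/
noncomputable def hcs {d : ℕ} (i : Fin d) (τ : Bool) (R : ℤ) : Finset (Vx d) :=
  (cube (0 : Vx d) R).filter (fun y => 0 ≤ (if τ then -1 else 1 : ℤ) * y i)

/-- An arm contains a crossing of a half cube. -/
theorem arm_cross {d : ℕ} (R : ℕ) (ω : Set (Ed d)) (v : Vx d) (hv : ∃ i, |v i| = (R : ℤ))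
    (h : conn (ω ∩ ↑(edg (cube (0 : Vx d) (R : ℤ)))) 0 v) :
    ∃ (i : Fin d) (τ : Bool), ∃ u ∈ cube (0 : Vx d) (R : ℤ), ∃ u' ∈ cube (0 : Vx d) (R : ℤ),
      u i = 0 ∧ (if τ then -1 else 1 : ℤ) * u' i = R ∧ conn (ω ∩ ↑(edg (hcs i τ (R : ℤ)))) u u' := by
  classical
  obtain ⟨i, hi⟩ := hv
  have h0 : (0 : Vx d) ∈ cube (0 : Vx d) (R : ℤ) := by
    rw [mem_cube]
    intro j
    simp
  have hR : (0 : ℤ) ≤ R := by positivity
  have main : ∀ τ : Bool, (if τ then -1 else 1 : ℤ) * v i = R →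
      ∃ u ∈ cube (0 : Vx d) (R : ℤ), ∃ u' ∈ cube (0 : Vx d) (R : ℤ),
      u i = 0 ∧ (if τ then -1 else 1 : ℤ) * u' i = R ∧
        conn (ω ∩ ↑(edg (hcs i τ (R : ℤ)))) u u' := by
    intro τ hτ
    obtain ⟨u0, h1, h2, h3, h4⟩ := last_visit (cube (0 : Vx d) (R : ℤ))
      (fun y => (if τ then -1 else 1 : ℤ) * y i)
      (by
        intro y j
        have h5 : (y + uv j) i = y i ∨ (y + uv j) i = y i + 1 := by
          by_cases hji : j = i
          · subst hji
            right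
            rw [Pi.add_apply, uv_self]
          · left
            rw [Pi.add_apply, uv_ne (fun h => hji h.symm), add_zero]
        rcases h5 with h5 | h5 <;> cases τ <;> simp only [h5] <;> constructor <;> norm_num
        linarith)
      (ω ∩ ↑(edg (cube (0 : Vx d) (R : ℤ)))) Set.inter_subset_right 0 v h0 (by simp) h
      (by
        show (0 : ℤ) ≤ (if τ then -1 else 1 : ℤ) * v i
        rw [hτ]
        exact hR)
    refine ⟨u0, h1, v, h3, ?_, hτ, conn_mono ?_ h4⟩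
    · have h6 : (if τ then -1 else 1 : ℤ) * u0 i = 0 := h2
      cases τ
      · simpa using h6
      · simpa using h6
    · intro e he
      exact ⟨he.1.1, he.2⟩
  rcases abs_choice (v i) with h7 | h7
  · refine ⟨i, false, main false ?_⟩
    rw [h7] at hi
    simpa using hi
  · refine ⟨i, true, main true ?_⟩
    rw [h7] at hi
    simpa using hi

/-! ### Pigeonhole -/

theorem pigeon {d : ℕ} (x : ℝ) (hx : 0 ≤ x) (F : Finset (Ed d)) (R : ℕ) (q : ℝ) (hq : 0 ≤ q)
    (h : q * ZZ (loopM x) F 0 ≤ EL (loopM x) F 0 (fun η =>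
        ind (∃ v : Vx d, (∃ i, |v i| = (R : ℤ)) ∧
          conn (↑η ∩ ↑(edg (cube (0 : Vx d) (R : ℤ)))) 0 v))) (hd : 0 < d) :
    ∃ (i : Fin d) (τ : Bool), ∃ u ∈ cube (0 : Vx d) (R : ℤ), ∃ u' ∈ cube (0 : Vx d) (R : ℤ),
      u i = 0 ∧ (if τ then -1 else 1 : ℤ) * u' i = R ∧
      q / (2 * d * ((2 * R + 1) ^ (2 * d) : ℕ)) * ZZ (loopM x) F 0 ≤
        EL (loopM x) F 0 (fun η => ind (conn (↑η ∩ ↑(edg (hcs i τ (R : ℤ)))) u u')) := by
  classical
  set K : Finset ((Fin d × Bool) × (Vx d × Vx d)) :=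
    (Finset.univ ×ˢ (cube (0 : Vx d) (R : ℤ) ×ˢ cube (0 : Vx d) (R : ℤ))).filter
      (fun q => q.2.1 q.1.1 = 0 ∧ (if q.1.2 then -1 else 1 : ℤ) * q.2.2 q.1.1 = R) with hK
  have hcard : (K.card : ℝ) ≤ 2 * d * ((2 * R + 1) ^ (2 * d) : ℕ) := by
    have h1 : K.card ≤ (d * 2) * ((2 * R + 1) ^ d * (2 * R + 1) ^ d) := by
      refine le_trans (Finset.card_filter_le _ _) ?_
      rw [Finset.card_product, Finset.card_product, card_cube, Finset.card_univ,
        Fintype.card_prod, Fintype.card_fin, Fintype.card_bool]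
    have h2 : (d * 2) * ((2 * R + 1) ^ d * (2 * R + 1) ^ d) = 2 * d * (2 * R + 1) ^ (2 * d) := by
      rw [← pow_add, ← two_mul, mul_comm d 2]
    rw [h2] at h1
    exact_mod_cast h1
  have hle : EL (loopM x) F 0 (fun η =>
        ind (∃ v : Vx d, (∃ i, |v i| = (R : ℤ)) ∧
          conn (↑η ∩ ↑(edg (cube (0 : Vx d) (R : ℤ)))) 0 v)) ≤
      ∑ q ∈ K, EL (loopM x) F 0 (fun η =>
        ind (conn (↑η ∩ ↑(edg (hcs q.1.1 q.1.2 (R : ℤ)))) q.2.1 q.2.2)) := by
    rw [← EL_sum]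
    refine EL_mono (loopM x) hx zero_le_one F 0 _ _ fun η _ => ?_
    by_cases h1 : ∃ v : Vx d, (∃ i, |v i| = (R : ℤ)) ∧
          conn (↑η ∩ ↑(edg (cube (0 : Vx d) (R : ℤ)))) 0 v
    · rw [ind_true h1]
      obtain ⟨v, hv, hc⟩ := h1
      obtain ⟨i, τ, u, hu, u', hu', h2, h3, h4⟩ := arm_cross R _ v hv hc
      have hmem : ((i, τ), (u, u')) ∈ K := by
        rw [hK, Finset.mem_filter, Finset.mem_product, Finset.mem_product]
        exact ⟨⟨Finset.mem_univ _, hu, hu'⟩, h2, h3⟩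
      have h5 := Finset.single_le_sum (f := fun q : (Fin d × Bool) × (Vx d × Vx d) =>
        ind (conn (↑η ∩ ↑(edg (hcs q.1.1 q.1.2 (R : ℤ)))) q.2.1 q.2.2))
        (fun q _ => ind_nonneg _) hmem
      refine le_trans (le_of_eq ?_) h5
      rw [ind_true h4]
    · rw [ind_false h1]
      exact Finset.sum_nonneg fun q _ => ind_nonneg _
  have hZ : 0 ≤ ZZ (loopM x) F 0 := ZZ_nonneg (loopM x) hx zero_le_one F 0
  have hne : K.Nonempty := by
    refine ⟨((⟨0, hd⟩, false), ((0 : Vx d), (R : ℤ) • uv ⟨0, hd⟩)), ?_⟩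
    rw [hK, Finset.mem_filter, Finset.mem_product, Finset.mem_product]
    refine ⟨⟨Finset.mem_univ _, ?_, ?_⟩, rfl, ?_⟩
    · rw [mem_cube]
      intro j
      simp
    · rw [mem_cube]
      intro j
      show |((R : ℤ) • uv ⟨0, hd⟩ : Vx d) j - 0| ≤ R
      rw [Pi.smul_apply, smul_eq_mul, sub_zero]
      by_cases hj : j = ⟨0, hd⟩
      · rw [hj, uv_self]
        simp
      · rw [uv_ne hj]
        simp
    · show (if false then -1 else 1 : ℤ) * ((R : ℤ) • uv ⟨0, hd⟩ : Vx d) ⟨0, hd⟩ = R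
      rw [Pi.smul_apply, smul_eq_mul, uv_self]
      simp
  have hN : (0 : ℝ) < 2 * d * ((2 * R + 1) ^ (2 * d) : ℕ) := by
    have h1 : (0 : ℝ) < d := by exact_mod_cast hd
    have h2 : (0 : ℝ) < ((2 * R + 1) ^ (2 * d) : ℕ) := by
      exact_mod_cast Nat.pos_of_ne_zero (by positivity)
    positivity
  set N : ℝ := 2 * d * ((2 * R + 1) ^ (2 * d) : ℕ) with hNdef
  obtain ⟨⟨⟨i, τ⟩, ⟨u, u'⟩⟩, h6, h7⟩ := Finset.exists_le_of_sum_le
    (f := fun _ => q / N * ZZ (loopM x) F 0)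
    (g := fun q : (Fin d × Bool) × (Vx d × Vx d) => EL (loopM x) F 0 (fun η =>
        ind (conn (↑η ∩ ↑(edg (hcs q.1.1 q.1.2 (R : ℤ)))) q.2.1 q.2.2))) hne (by
      refine le_trans ?_ (le_trans h hle)
      rw [Finset.sum_const, nsmul_eq_mul]
      calc (K.card : ℝ) * (q / N * ZZ (loopM x) F 0) ≤ N * (q / N * ZZ (loopM x) F 0) :=
            mul_le_mul_of_nonneg_right hcard (mul_nonneg (div_nonneg hq hN.le) hZ)
        _ = q * ZZ (loopM x) F 0 := by
            field_simp)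
  rw [hK, Finset.mem_filter, Finset.mem_product, Finset.mem_product] at h6
  exact ⟨i, τ, u, h6.1.2.1, u', h6.1.2.2, h6.2.1, h6.2.2, h7⟩

/-- Sourceless crossing of a half cube, unreflected. -/
theorem cross0 {d : ℕ} (x : ℝ) (R : ℕ) (r : ℤ) (p : ℝ) (i : Fin d) (τ : Bool) (u u' : Vx d)
    (hu : u ∈ cube (0 : Vx d) (R : ℤ)) (hu' : u' ∈ cube (0 : Vx d) (R : ℤ)) (h0 : u i = 0)
    (h1 : (if τ then -1 else 1 : ℤ) * u' i = R)
    (h : p * ZZ (loopM x) (edg (cube (0 : Vx d) r)) 0 ≤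
        EL (loopM x) (edg (cube (0 : Vx d) r)) 0
          (fun η => ind (conn (↑η ∩ ↑(edg (hcs i τ (R : ℤ)))) u u'))) :
    ∃ w w' : Vx d, w i = 0 ∧ w' i = 0 ∧ (∀ j, |w j| ≤ R) ∧ (∀ j, |w' j| ≤ R) ∧
      p * ZZ (loopM x) (edg (cube (0 : Vx d) r)) 0 ≤
        EL (loopM x) (edg (cube (0 : Vx d) r)) 0
          (fun η => ind (conn (↑(η ∩ edg (hcube (0 : Vx d) i R))) w ((R : ℤ) • uv i + w'))) := by
  classical
  set s : Fin d → Bool := fun j => decide (j = i) && τ with hs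
  have hsi : s i = τ := by
    rw [hs]
    simp
  have hsj : ∀ j, j ≠ i → s j = false := by
    intro j hj
    rw [hs]
    simp [hj]
  have hR : (0 : ℤ) ≤ R := by positivity
  have e0 : ∀ v : Vx d, fl1 s v i = (if τ then -1 else 1 : ℤ) * v i := by
    intro v
    unfold fl1
    rw [hsi]
    cases τ <;> simp
  have ej : ∀ (v : Vx d) (j : Fin d), |fl1 s v j| = |v j| := by
    intro v j
    unfold fl1
    cases s j <;> simp
  have hh : (hcs i τ (R : ℤ)).image (flip s).φ = hcube (0 : Vx d) i R := by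
    refine image_eq _ _ _ fun v => ?_
    unfold hcs
    rw [mem_hcube, Finset.mem_filter, mem_cube, mem_cube, flip_φ, e0]
    refine and_congr (forall_congr' fun j => ?_) Iff.rfl
    rw [Pi.zero_apply, sub_zero, sub_zero, ej]
  have h2 := (flip s).transfer (loopM x) (edg (cube (0 : Vx d) r)) (edg (hcs i τ (R : ℤ))) p u u' 0
    (by
      refine le_trans h (le_of_eq ?_)
      refine EL_congr _ _ _ _ _ fun η _ => ?_
      rw [Finset.coe_inter])
  rw [← Aut.edg_eq, ← Aut.edg_eq, hh, cube_flip, flip_φ, flip_φ] at h2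
  rw [mem_cube] at hu hu'
  refine ⟨fl1 s u, fl1 s u' - (R : ℤ) • uv i, ?_, ?_, ?_, ?_, ?_⟩
  · rw [e0, h0, mul_zero]
  · rw [Pi.sub_apply, e0, h1, Pi.smul_apply, uv_self, smul_eq_mul, mul_one, sub_self]
  · intro j
    rw [ej]
    have := hu j
    rwa [Pi.zero_apply, sub_zero] at this
  · intro j
    rw [Pi.sub_apply, Pi.smul_apply, smul_eq_mul]
    by_cases hj : j = i
    · rw [hj, e0, h1, uv_self, mul_one, sub_self, abs_zero]
      exact hR
    · rw [uv_ne hj, mul_zero, sub_zero, ej]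
      have := hu' j
      rwa [Pi.zero_apply, sub_zero] at this
  · have h3 : (R : ℤ) • uv i + (fl1 s u' - (R : ℤ) • uv i) = fl1 s u' := by abel
    rw [h3]
    exact h2

/-- No configuration has sources outside the region. -/
theorem ZZ_out {d : ℕ} (x : ℝ) (S : Finset (Vx d)) (A : Vx d → ZMod 2) (v : Vx d) (hv : v ∉ S)
    (hA : A v ≠ 0) : ZZ (loopM x) (edg S) A = 0 := by
  classical
  unfold ZZ EL
  refine Finset.sum_eq_zero fun η hη => ?_
  rw [Finset.mem_powerset] at hη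
  have h1 : bd η v = 0 := by
    unfold bd
    rw [Finset.sum_apply]
    refine Finset.sum_eq_zero fun e he => ?_
    have h2 := (mem_edg S e).mp (hη he)
    unfold bde
    rw [Pi.add_apply, Pi.single_eq_of_ne (fun h => hv (by rw [h]; exact h2.1)),
      Pi.single_eq_of_ne (fun h => hv (by rw [h]; exact h2.2)), add_zero]
  have h2 : ¬ ((loopM x).s • bd η = A) := by
    intro h3
    apply hA
    rw [← h3]
    show (loopM x).s • bd η v = 0
    rw [h1, smul_zero]
  rw [ind_false h2]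
  ring

/-- Crossings of half cubes at prescribed points for all pieces and all sources off the interior. -/
theorem cross {d : ℕ} (hd : 0 < d) (x : ℝ) (hx : 0 < x) (hx1 : x < 1) (hF : FACC d x)
    (hA : ARM d x) (κ : ℝ) (hκ : 0 < κ) :
    ∃ c : ℝ, 0 < c ∧ ∃ R0 : ℕ, ∀ R t : ℕ, R0 ≤ R → κ * R ≤ t →
    ∃ W W' : Fin d → Vx d, (∀ i, W i i = 0 ∧ ∀ j, |W i j| ≤ (R : ℤ)) ∧
      (∀ i, W' i i = 0 ∧ ∀ j, |W' i j| ≤ (R : ℤ)) ∧
      ∀ (q : Pc d) (S : Vx d → ZMod 2), (∀ v ∈ cube q.z ((R : ℤ) + t - 1), S v = 0) →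
        c * ((R : ℝ) ^ (3 * d))⁻¹ * ZZ (loopM x) (edg (cube q.z ((R : ℤ) + t))) S ≤
          EL (loopM x) (edg (cube q.z ((R : ℤ) + t))) S
            (fun η => ind (conn (↑(η ∩ edg (hcube q.z q.k R))) (q.st W) (q.en W' R))) := by
  classical
  obtain ⟨R1, h1⟩ := hF κ hκ 1 one_pos
  obtain ⟨c, hc, R2, h2⟩ := hA κ hκ
  have hdR : (0 : ℝ) < d := by exact_mod_cast hd
  refine ⟨c / (4 * d * 9 ^ d), by positivity, max 1 (max R1 R2), fun R t hR ht => ?_⟩
  have hR1 : 1 ≤ R := le_trans (le_max_left _ _) hR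
  have hR2 : R1 ≤ R := le_trans (le_trans (le_max_left _ _) (le_max_right _ _)) hR
  have hR3 : R2 ≤ R := le_trans (le_trans (le_max_right _ _) (le_max_right _ _)) hR
  have hRR : (1 : ℝ) ≤ R := by exact_mod_cast hR1
  have hR0 : (0 : ℝ) < R := by linarith
  obtain ⟨i, τ, u, hu, u', hu', h3, h4, h5⟩ := pigeon x hx.le
    (edg (cube (0 : Vx d) ((R : ℤ) + t))) R (c * ((R : ℝ) ^ d)⁻¹) (by positivity)
    (h2 R t hR3 ht) hd
  obtain ⟨w, w', h6, h7, h8, h9, h10⟩ := cross0 x R ((R : ℤ) + t) _ i τ u u' hu hu' h3 h4 h5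
  set p0 : ℝ := c * ((R : ℝ) ^ d)⁻¹ / (2 * d * ((2 * R + 1) ^ (2 * d) : ℕ)) with hp0
  -- constants
  have hp : c / (4 * d * 9 ^ d) * ((R : ℝ) ^ (3 * d))⁻¹ ≤ p0 / 2 := by
    have e1 : (((2 * R + 1) ^ (2 * d) : ℕ) : ℝ) ≤ 9 ^ d * (R : ℝ) ^ (2 * d) := by
      push_cast
      calc (2 * (R : ℝ) + 1) ^ (2 * d) ≤ (3 * (R : ℝ)) ^ (2 * d) :=
            pow_le_pow_left₀ (by positivity) (by linarith) _
        _ = 9 ^ d * (R : ℝ) ^ (2 * d) := by
            rw [mul_pow, pow_mul]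
            norm_num
    have e2 : (0 : ℝ) < (((2 * R + 1) ^ (2 * d) : ℕ) : ℝ) := by
      push_cast
      positivity
    have e3 : (R : ℝ) ^ (3 * d) = (R : ℝ) ^ d * (R : ℝ) ^ (2 * d) := by
      rw [← pow_add]
      congr 1
      ring
    have e4 : p0 / 2 = c / (4 * d * ((R : ℝ) ^ d * (((2 * R + 1) ^ (2 * d) : ℕ) : ℝ))) := by
      rw [hp0]
      field_simp
      ring
    rw [e4, e3, ← div_eq_mul_inv, div_div]
    refine div_le_div_of_nonneg_left hc.le (by positivity) ?_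
    calc 4 * (d : ℝ) * ((R : ℝ) ^ d * (((2 * R + 1) ^ (2 * d) : ℕ) : ℝ)) ≤
        4 * (d : ℝ) * ((R : ℝ) ^ d * (9 ^ d * (R : ℝ) ^ (2 * d))) := by
          refine mul_le_mul_of_nonneg_left (mul_le_mul_of_nonneg_left e1 (by positivity))
            (by positivity)
      _ = 4 * d * 9 ^ d * ((R : ℝ) ^ d * (R : ℝ) ^ (2 * d)) := by ring
  -- all sources
  have hall : ∀ S : Vx d → ZMod 2, (∀ v ∈ cube (0 : Vx d) ((R : ℤ) + t - 1), S v = 0) →
      c / (4 * d * 9 ^ d) * ((R : ℝ) ^ (3 * d))⁻¹ *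
        ZZ (loopM x) (edg (cube (0 : Vx d) ((R : ℤ) + t))) S ≤
      EL (loopM x) (edg (cube (0 : Vx d) ((R : ℤ) + t))) S
        (fun η => ind (conn (↑(η ∩ edg (hcube (0 : Vx d) i R))) w ((R : ℤ) • uv i + w'))) := by
    intro S hS
    have hnn : 0 ≤ EL (loopM x) (edg (cube (0 : Vx d) ((R : ℤ) + t))) S
        (fun η => ind (conn (↑(η ∩ edg (hcube (0 : Vx d) i R))) w ((R : ℤ) • uv i + w'))) :=
      EL_nonneg (loopM x) hx.le zero_le_one _ _ _ fun _ _ => ind_nonneg _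
    by_cases hout : ∃ v, v ∉ cube (0 : Vx d) ((R : ℤ) + t) ∧ S v ≠ 0
    · obtain ⟨v, hv, hv2⟩ := hout
      rw [ZZ_out x _ S v hv hv2, mul_zero]
      exact hnn
    · push Not at hout
      have hsup : ∀ v, S v ≠ 0 → v ∈ cube (0 : Vx d) ((R : ℤ) + t) ∧
          ∃ j, |v j| = (R : ℤ) + t := by
        intro v hv
        have m1 : v ∈ cube (0 : Vx d) ((R : ℤ) + t) := by
          by_contra hm
          exact hv (hout v hm)
        refine ⟨m1, ?_⟩
        by_contra hm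
        push Not at hm
        apply hv
        apply hS
        rw [mem_cube] at m1 ⊢
        intro j
        have a1 := m1 j
        have a2 := hm j
        rw [Pi.zero_apply, sub_zero] at a1 ⊢
        omega
      have hT : edg (cube (0 : Vx d) (R : ℤ)) ⊆ edg (cube (0 : Vx d) ((R : ℤ) + t)) := by
        intro e he
        rw [mem_edg, mem_cube, mem_cube] at he ⊢
        exact ⟨fun j => le_trans (he.1 j) (by omega), fun j => le_trans (he.2 j) (by omega)⟩
      have hRM := Rm.RMl (x := x) (ε := 1) (F := edg (cube (0 : Vx d) ((R : ℤ) + t)))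
        (T := edg (cube (0 : Vx d) (R : ℤ))) (S := S)
        (f := fun y => ind (conn (↑(y ∩ edg (hcube (0 : Vx d) i R))) w ((R : ℤ) • uv i + w')))
        hx.le hx1.le zero_le_one hT (fun _ _ => ind_nonneg _)
        (fun y hy => h1 R t hR2 ht y hy S hsup)
      have hcore : ∀ A : Vx d → ZMod 2, EL (loopM x) (edg (cube (0 : Vx d) ((R : ℤ) + t))) A
          (fun η => ind (conn (↑(η ∩ edg (cube (0 : Vx d) (R : ℤ)) ∩ edg (hcube (0 : Vx d) i R))) w
            ((R : ℤ) • uv i + w'))) =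
          EL (loopM x) (edg (cube (0 : Vx d) ((R : ℤ) + t))) A
          (fun η => ind (conn (↑(η ∩ edg (hcube (0 : Vx d) i R))) w ((R : ℤ) • uv i + w'))) := by
        intro A
        refine EL_congr _ _ _ _ _ fun η _ => ?_
        have a1 : η ∩ edg (cube (0 : Vx d) (R : ℤ)) ∩ edg (hcube (0 : Vx d) i R) =
            η ∩ edg (hcube (0 : Vx d) i R) := by
          ext e
          rw [Finset.mem_inter, Finset.mem_inter, Finset.mem_inter]
          constructor
          · rintro ⟨⟨a2, -⟩, a3⟩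
            exact ⟨a2, a3⟩
          · rintro ⟨a2, a3⟩
            refine ⟨⟨a2, ?_⟩, a3⟩
            rw [mem_edg, mem_hcube, mem_hcube] at a3
            rw [mem_edg]
            exact ⟨a3.1.1, a3.2.1⟩
        rw [a1]
      rw [hcore, hcore] at hRM
      have hZ0 : 0 < ZZ (loopM x) (edg (cube (0 : Vx d) ((R : ℤ) + t))) 0 :=
        lt_of_lt_of_le one_pos (ZZ_zero_ge x hx.le _)
      have hZS : 0 ≤ ZZ (loopM x) (edg (cube (0 : Vx d) ((R : ℤ) + t))) S :=
        ZZ_nonneg (loopM x) hx.le zero_le_one _ _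
      set E0 := EL (loopM x) (edg (cube (0 : Vx d) ((R : ℤ) + t))) 0
          (fun η => ind (conn (↑(η ∩ edg (hcube (0 : Vx d) i R))) w ((R : ℤ) • uv i + w'))) with hE0
      set ES := EL (loopM x) (edg (cube (0 : Vx d) ((R : ℤ) + t))) S
          (fun η => ind (conn (↑(η ∩ edg (hcube (0 : Vx d) i R))) w ((R : ℤ) • uv i + w'))) with hES
      set Z0 := ZZ (loopM x) (edg (cube (0 : Vx d) ((R : ℤ) + t))) 0 with hZ0d
      set ZS := ZZ (loopM x) (edg (cube (0 : Vx d) ((R : ℤ) + t))) S with hZSd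
      have b1 : p0 * Z0 * ZS ≤ 2 * (ES * Z0) := by
        refine le_trans (mul_le_mul_of_nonneg_right h10 hZS) (le_trans hRM (le_of_eq ?_))
        norm_num
      have b2 : p0 * ZS ≤ 2 * ES := by
        have b3 : (p0 * ZS) * Z0 ≤ (2 * ES) * Z0 := by linarith
        exact le_of_mul_le_mul_right b3 hZ0
      have b4 := mul_le_mul_of_nonneg_right hp hZS
      linarith
  exact piece_all (loopM x) ((R : ℤ) + t) R i _ w w' h6 h7 h8 h9 hall

/-- (CROSS) from (FAC) and (ARM). -/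
theorem Cross_of {d : ℕ} (hd : 0 < d) (x : ℝ) (hx : 0 < x) (hx1 : x < 1) (hF : FACC d x)
    (hA : ARM d x) : Cross d x := by
  refine ⟨3 * d, fun κ hκ _ => ?_⟩
  obtain ⟨c, hc, R0, h⟩ := cross hd x hx hx1 hF hA κ hκ
  refine ⟨c, hc, max 1 R0, fun R t hR ht _ => ?_⟩
  obtain ⟨W, W', h1, h2, h3⟩ := h R t (le_trans (le_max_right _ _) hR) ht
  refine ⟨W, W', h1, h2, fun q S hS => ?_⟩
  have hRR : (1 : ℝ) ≤ R := by exact_mod_cast le_trans (le_max_left _ _) hR
  refine le_trans ?_ (h3 q S ?_)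
  · refine mul_le_mul_of_nonneg_right (mul_le_mul_of_nonneg_left ?_ hc.le)
      (ZZ_nonneg (loopM x) hx.le zero_le_one _ _)
    rw [← inv_pow]
    refine pow_le_pow_left₀ (by positivity) ?_ _
    refine inv_anti₀ (by linarith) (by linarith)
  · intro v hv
    apply hS
    intro i
    have := (mem_cube _ _ _).mp hv i
    linarith

end Pool.Agent.Glu
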