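import Pool.Agent.Glu.Cube

/-! Geometry of the gluing lemma: staircase path, chains of half cubes, gaps. -/

set_option autoImplicit false

namespace Pool.Agent.Glu

open Finset Pool.Agent.SRC

/-! ### Straight lines -/

/-- Straight line of `n` edges from `x` in direction `k`. -/
def ln {d : ℕ} (x : Vx d) (k : Fin d) (n : ℕ) : Finset (Ed d) :=
  (Finset.range n).image (fun c : ℕ => (x + (c : ℤ) • uv k, k))

theorem mem_ln {d : ℕ} (x : Vx d) (k : Fin d) (n : ℕ) (e : Ed d) :
    e ∈ ln x k n ↔ ∃ c : ℕ, c < n ∧ (x + (c : ℤ) • uv k, k) = e := by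
  unfold ln
  simp only [Finset.mem_image, Finset.mem_range]

theorem card_ln {d : ℕ} (x : Vx d) (k : Fin d) (n : ℕ) : (ln x k n).card ≤ n := by
  unfold ln
  refine le_trans Finset.card_image_le ?_
  rw [Finset.card_range]

theorem conn_ln {d : ℕ} (x : Vx d) (k : Fin d) (n : ℕ) (ω : Set (Ed d)) (h : ↑(ln x k n) ⊆ ω) :
    conn ω x (x + (n : ℤ) • uv k) := by
  induction n with
  | zero =>
    have : x + ((0 : ℕ) : ℤ) • uv k = x := by simp
    rw [this]
    exact conn_refl ω x
  | succ n ih =>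
    have h1 : (↑(ln x k n) : Set (Ed d)) ⊆ ω := by
      intro e he
      apply h
      rw [Finset.mem_coe, mem_ln] at he ⊢
      obtain ⟨c, hc, he⟩ := he
      exact ⟨c, Nat.lt_succ_of_lt hc, he⟩
    refine Relation.ReflTransGen.tail (ih h1) ?_
    refine ⟨k, Or.inl ⟨?_, ?_⟩⟩
    · apply h
      rw [Finset.mem_coe, mem_ln]
      exact ⟨n, Nat.lt_succ_self n, rfl⟩
    · push_cast
      rw [add_smul, one_smul, add_assoc]

theorem ln_sub {d : ℕ} (x : Vx d) (k : Fin d) (n : ℕ) (S : Finset (Vx d))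
    (h : ∀ c : ℕ, c ≤ n → x + (c : ℤ) • uv k ∈ S) : ln x k n ⊆ edg S := by
  intro e he
  rw [mem_ln] at he
  obtain ⟨c, hc, rfl⟩ := he
  rw [mem_edg]
  refine ⟨h c (le_of_lt hc), ?_⟩
  have := h (c + 1) hc
  unfold tip
  simp only []
  have h2 : x + ((c + 1 : ℕ) : ℤ) • uv k = x + (c : ℤ) • uv k + uv k := by
    push_cast
    rw [add_smul, one_smul, add_assoc]
  rw [h2] at this
  exact this

theorem line_apply_self {d : ℕ} (x : Vx d) (k : Fin d) (c : ℤ) : (x + c • uv k) k = x k + c := by
  rw [Pi.add_apply, Pi.smul_apply, uv_self, smul_eq_mul, mul_one]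

theorem line_apply_ne {d : ℕ} (x : Vx d) {k j : Fin d} (h : j ≠ k) (c : ℤ) :
    (x + c • uv k) j = x j := by
  rw [Pi.add_apply, Pi.smul_apply, uv_ne h, smul_eq_mul, mul_zero, add_zero]

/-! ### One segment -/

section seg

variable {d : ℕ} (R t : ℕ) (w w' : Fin d → Vx d)

/-- Margin. -/
def Mg : ℕ := 3 * R + 2 * t + 1

/-- Step. -/
def Dg : ℕ := R + t + 1

/-- Number of pairs of pieces in a segment of length `l`. -/
def rr (l : ℕ) : ℕ := (l - 2 * Mg R t) / (2 * Dg R t)

theorem rr_le (l : ℕ) : 2 * rr R t l * Dg R t ≤ l - 2 * Mg R t := by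
  unfold rr
  have h := Nat.div_mul_le_self (l - 2 * Mg R t) (2 * Dg R t)
  calc 2 * ((l - 2 * Mg R t) / (2 * Dg R t)) * Dg R t
      = (l - 2 * Mg R t) / (2 * Dg R t) * (2 * Dg R t) := by ring
    _ ≤ _ := h

theorem Dg_pos : 0 < Dg R t := by unfold Dg; omega

theorem rr_lt (l : ℕ) : l < 2 * rr R t l * Dg R t + 2 * Mg R t + 2 * Dg R t := by
  have h := Nat.lt_div_mul_add (a := l - 2 * Mg R t) (b := 2 * Dg R t) (by have := Dg_pos R t; omega)
  have h2 : 2 * rr R t l * Dg R t = (l - 2 * Mg R t) / (2 * Dg R t) * (2 * Dg R t) := by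
    unfold rr; ring
  omega

/-- The `i`-th piece of the segment from `x` in direction `k`. -/
def pc (x : Vx d) (k : Fin d) (i : ℕ) : Pc d :=
  ⟨x + ((Mg R t + i * Dg R t : ℕ) : ℤ) • uv k + (if i % 2 = 0 then - w k else w' k), k,
    decide (i % 2 = 1)⟩

/-- Start point of the `i`-th piece. -/
def sp (x : Vx d) (k : Fin d) (i : ℕ) : Vx d :=
  x + ((Mg R t + i * Dg R t : ℕ) : ℤ) • uv k + (if i % 2 = 0 then 0 else w' k - w k)

/-- End point of the `i`-th piece. -/
def ep (x : Vx d) (k : Fin d) (i : ℕ) : Vx d :=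
  x + ((Mg R t + i * Dg R t + R : ℕ) : ℤ) • uv k + (if i % 2 = 0 then w' k - w k else 0)

theorem pc_st (x : Vx d) (k : Fin d) (i : ℕ) : (pc R t w w' x k i).st w = sp R t w w' x k i := by
  unfold Pc.st pc sp sg
  rcases Nat.mod_two_eq_zero_or_one i with h | h
  · simp only [h, decide_eq_true_eq, if_true]
    simp
  · simp only [h, decide_eq_true_eq]
    simp
    abel

theorem pc_en (x : Vx d) (k : Fin d) (i : ℕ) :
    (pc R t w w' x k i).en w' R = ep R t w w' x k i := by
  unfold Pc.en pc ep sg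
  rcases Nat.mod_two_eq_zero_or_one i with h | h
  · simp only [h]
    push_cast
    rw [add_smul _ (R : ℤ)]
    simp
    abel
  · simp only [h]
    push_cast
    rw [add_smul _ (R : ℤ)]
    simp
    abel

theorem ep_gap (x : Vx d) (k : Fin d) (i : ℕ) :
    ep R t w w' x k i + ((t + 1 : ℕ) : ℤ) • uv k = sp R t w w' x k (i + 1) := by
  unfold ep sp
  have h1 : ((Mg R t + (i + 1) * Dg R t : ℕ) : ℤ)
      = ((Mg R t + i * Dg R t + R : ℕ) : ℤ) + ((t + 1 : ℕ) : ℤ) := by
    unfold Dg
    push_cast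
    ring
  rw [h1, add_smul]
  have h2 : (if (i + 1) % 2 = 0 then (0 : Vx d) else w' k - w k)
      = (if i % 2 = 0 then w' k - w k else 0) := by
    rcases Nat.mod_two_eq_zero_or_one i with h | h
    · have : (i + 1) % 2 = 1 := by omega
      simp [h, this]
    · have : (i + 1) % 2 = 0 := by omega
      simp [h, this]
  rw [h2]
  abel

/-- Pieces of a segment of length `l`. -/
def sps (x : Vx d) (k : Fin d) (l : ℕ) : List (Pc d) :=
  (List.range (2 * rr R t l)).map (pc R t w w' x k)

/-- Edges to open in a segment of length `l`. -/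
def sJ (x : Vx d) (k : Fin d) (l : ℕ) : Finset (Ed d) :=
  (if rr R t l = 0 then ln x k l else
    ln x k (Mg R t) ∪ ln (x + ((Mg R t + 2 * rr R t l * Dg R t : ℕ) : ℤ) • uv k) k
      (l - (Mg R t + 2 * rr R t l * Dg R t))) ∪
  (Finset.range (2 * rr R t l)).biUnion (fun i => ln (ep R t w w' x k i) k (t + 1))

theorem card_sJ (x : Vx d) (k : Fin d) (l : ℕ) :
    (sJ R t w w' x k l).card ≤ (t + 1) * (2 * rr R t l) + (2 * Mg R t + 2 * Dg R t) := by
  unfold sJ
  refine le_trans (Finset.card_union_le _ _) ?_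
  have h1 : ((Finset.range (2 * rr R t l)).biUnion
      (fun i => ln (ep R t w w' x k i) k (t + 1))).card ≤ (t + 1) * (2 * rr R t l) := by
    refine le_trans (Finset.card_biUnion_le) ?_
    refine le_trans (Finset.sum_le_card_nsmul _ _ (t + 1) (fun i _ => card_ln _ _ _)) ?_
    rw [Finset.card_range, smul_eq_mul, mul_comm]
  have h2 := rr_lt R t l
  have h3 : (if rr R t l = 0 then ln x k l else
    ln x k (Mg R t) ∪ ln (x + ((Mg R t + 2 * rr R t l * Dg R t : ℕ) : ℤ) • uv k) k
      (l - (Mg R t + 2 * rr R t l * Dg R t))).card ≤ 2 * Mg R t + 2 * Dg R t := by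
    by_cases h0 : rr R t l = 0
    · rw [if_pos h0]
      refine le_trans (card_ln _ _ _) ?_
      rw [h0] at h2
      omega
    · rw [if_neg h0]
      refine le_trans (Finset.card_union_le _ _) ?_
      have h4 := card_ln x k (Mg R t)
      have h5 := card_ln (x + ((Mg R t + 2 * rr R t l * Dg R t : ℕ) : ℤ) • uv k) k
        (l - (Mg R t + 2 * rr R t l * Dg R t))
      omega
  omega

theorem conn_seg (x : Vx d) (k : Fin d) (l : ℕ) (ω : Set (Ed d))
    (h : ∀ q ∈ sps R t w w' x k l,
      conn (ω ∩ ↑(edg (hcube q.z q.k (R : ℤ)))) (q.st w) (q.en w' R)) :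
    conn (ω ∪ ↑(sJ R t w w' x k l)) x (x + (l : ℤ) • uv k) := by
  set Ω : Set (Ed d) := ω ∪ ↑(sJ R t w w' x k l) with hΩ
  have hgap : ∀ i, i < 2 * rr R t l → (↑(ln (ep R t w w' x k i) k (t + 1)) : Set (Ed d)) ⊆ Ω := by
    intro i hi e he
    right
    rw [Finset.mem_coe] at he ⊢
    unfold sJ
    rw [Finset.mem_union]
    right
    rw [Finset.mem_biUnion]
    exact ⟨i, Finset.mem_range.mpr hi, he⟩
  by_cases h0 : rr R t l = 0
  · apply conn_ln
    intro e he
    right
    rw [Finset.mem_coe] at he ⊢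
    unfold sJ
    rw [if_pos h0, Finset.mem_union]
    left
    exact he
  · have hA : conn Ω x (sp R t w w' x k 0) := by
      have h1 : sp R t w w' x k 0 = x + ((Mg R t : ℕ) : ℤ) • uv k := by
        unfold sp
        simp
      rw [h1]
      apply conn_ln
      intro e he
      right
      rw [Finset.mem_coe] at he ⊢
      unfold sJ
      rw [if_neg h0, Finset.mem_union, Finset.mem_union]
      left; left
      exact he
    have hB : ∀ i, i ≤ 2 * rr R t l → conn Ω (sp R t w w' x k 0) (sp R t w w' x k i) := by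
      intro i
      induction i with
      | zero => intro _; exact conn_refl _ _
      | succ i ih =>
        intro hi
        have h1 := ih (by omega)
        have h2 := h (pc R t w w' x k i) (by
          unfold sps
          rw [List.mem_map]
          exact ⟨i, List.mem_range.mpr (by omega), rfl⟩)
        rw [pc_st, pc_en] at h2
        have h3 : conn Ω (sp R t w w' x k i) (ep R t w w' x k i) := by
          refine conn_mono ?_ h2
          intro e he
          left
          exact he.1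
        have h4 := conn_ln (ep R t w w' x k i) k (t + 1) Ω (hgap i (by omega))
        rw [ep_gap] at h4
        exact conn_trans h1 (conn_trans h3 h4)
    have hC : sp R t w w' x k (2 * rr R t l)
        = x + ((Mg R t + 2 * rr R t l * Dg R t : ℕ) : ℤ) • uv k := by
      unfold sp
      have : 2 * rr R t l % 2 = 0 := by omega
      rw [if_pos this, add_zero]
    have hD := conn_ln (x + ((Mg R t + 2 * rr R t l * Dg R t : ℕ) : ℤ) • uv k) k
        (l - (Mg R t + 2 * rr R t l * Dg R t)) Ω (by
      intro e he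
      right
      rw [Finset.mem_coe] at he ⊢
      unfold sJ
      rw [if_neg h0, Finset.mem_union, Finset.mem_union]
      left; right
      exact he)
    have hle : Mg R t + 2 * rr R t l * Dg R t ≤ l := by
      have h1 := rr_le R t l
      have h2 : 0 < 2 * rr R t l * Dg R t := by
        have := Dg_pos R t
        positivity
      omega
    have hE : x + ((Mg R t + 2 * rr R t l * Dg R t : ℕ) : ℤ) • uv k
        + ((l - (Mg R t + 2 * rr R t l * Dg R t) : ℕ) : ℤ) • uv k = x + (l : ℤ) • uv k := by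
      rw [add_assoc, ← add_smul]
      congr 2
      rw [← Nat.cast_add]
      congr 1
      omega
    rw [hE] at hD
    have hB' := hB _ le_rfl
    rw [hC] at hB'
    exact conn_trans hA (conn_trans hB' hD)

/-- Location of the pieces of a segment. -/
theorem sps_loc (hw : ∀ k, w k k = 0 ∧ ∀ j, |w k j| ≤ (R : ℤ))
    (hw' : ∀ k, w' k k = 0 ∧ ∀ j, |w' k j| ≤ (R : ℤ)) (x : Vx d) (k : Fin d) (l : ℕ) (q : Pc d)
    (hq : q ∈ sps R t w w' x k l) :
    q.k = k ∧ ∃ i : ℕ, i < 2 * rr R t l ∧ q = pc R t w w' x k i ∧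
      Mg R t + i * Dg R t + Dg R t + Mg R t ≤ l ∧
      q.z k = x k + ((Mg R t + i * Dg R t : ℕ) : ℤ) ∧
      ∀ j, |q.z j - (x + ((Mg R t + i * Dg R t : ℕ) : ℤ) • uv k) j| ≤ (R : ℤ) := by
  unfold sps at hq
  rw [List.mem_map] at hq
  obtain ⟨i, hi, rfl⟩ := hq
  rw [List.mem_range] at hi
  refine ⟨rfl, i, hi, rfl, ?_, ?_, ?_⟩
  · have h1 := rr_le R t l
    have h2 : (i + 1) * Dg R t ≤ 2 * rr R t l * Dg R t := Nat.mul_le_mul_right _ hi
    have h3 : 0 < 2 * rr R t l * Dg R t := by
      have := Dg_pos R t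
      have : 0 < 2 * rr R t l := by omega
      positivity
    rw [add_mul, one_mul] at h2
    omega
  · unfold pc
    simp only []
    rw [Pi.add_apply, line_apply_self]
    have : (if i % 2 = 0 then - w k else w' k : Vx d) k = 0 := by
      split_ifs
      · rw [Pi.neg_apply, (hw k).1, neg_zero]
      · exact (hw' k).1
    rw [this, add_zero]
  · intro j
    unfold pc
    simp only []
    rw [Pi.add_apply (x + _) _ j, add_sub_cancel_left]
    split_ifs
    · rw [Pi.neg_apply, abs_neg]
      exact (hw k).2 j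
    · exact (hw' k).2 j

end seg

/-! ### Staircases -/

section stair

variable {d : ℕ}

/-- Corners of the staircase from `a` to `b`. -/
def cor (a b : Vx d) (n : ℕ) : Vx d := fun j => if (j : ℕ) < n then b j else a j

/-- Lower end of the `k`-th segment. -/
def lo (a b : Vx d) (k : Fin d) : Vx d :=
  fun j => if j < k then b j else if j = k then min (a k) (b k) else a j

/-- Length of the `k`-th segment. -/
def len (a b : Vx d) (k : Fin d) : ℕ := (a k - b k).natAbs

theorem len_cast (a b : Vx d) (k : Fin d) : (len a b k : ℤ) = |a k - b k| := by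
  unfold len
  exact Int.natCast_natAbs _

theorem lo_self (a b : Vx d) (k : Fin d) : lo a b k k = min (a k) (b k) := by
  unfold lo
  rw [if_neg (lt_irrefl k), if_pos rfl]

theorem lo_lt (a b : Vx d) {k j : Fin d} (h : j < k) : lo a b k j = b j := by
  unfold lo
  rw [if_pos h]

theorem lo_gt (a b : Vx d) {k j : Fin d} (h : k < j) : lo a b k j = a j := by
  unfold lo
  rw [if_neg (not_lt.mpr h.le), if_neg (ne_of_gt h)]

theorem cor_zero (a b : Vx d) : cor a b 0 = a := by
  funext j
  unfold cor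
  simp

theorem cor_last (a b : Vx d) : cor a b d = b := by
  funext j
  unfold cor
  rw [if_pos j.isLt]

/-- Point at distance `c` from the lower end of the `k`-th segment. -/
def py (a b : Vx d) (k : Fin d) (c : ℕ) : Vx d := lo a b k + (c : ℤ) • uv k

theorem py_self (a b : Vx d) (k : Fin d) (c : ℕ) : py a b k c k = min (a k) (b k) + c := by
  unfold py
  rw [line_apply_self, lo_self]

theorem py_lt (a b : Vx d) {k j : Fin d} (h : j < k) (c : ℕ) : py a b k c j = b j := by
  unfold py
  rw [line_apply_ne _ (ne_of_lt h), lo_lt _ _ h]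

theorem py_gt (a b : Vx d) {k j : Fin d} (h : k < j) (c : ℕ) : py a b k c j = a j := by
  unfold py
  rw [line_apply_ne _ (ne_of_gt h), lo_gt _ _ h]

theorem seg_ends (a b : Vx d) (k : Fin d) :
    (lo a b k = cor a b k ∧ lo a b k + (len a b k : ℤ) • uv k = cor a b (k + 1)) ∨
    (lo a b k = cor a b (k + 1) ∧ lo a b k + (len a b k : ℤ) • uv k = cor a b k) := by
  have key : ∀ j, j ≠ k → (cor a b k j = lo a b k j ∧ cor a b (k + 1) j = lo a b k j) := by
    intro j hj
    rcases lt_or_gt_of_ne hj with h | h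
    · rw [lo_lt _ _ h]
      unfold cor
      have h1 : (j : ℕ) < k := h
      rw [if_pos h1, if_pos (Nat.lt_succ_of_lt h1)]
      exact ⟨rfl, rfl⟩
    · rw [lo_gt _ _ h]
      unfold cor
      have h1 : (k : ℕ) < j := h
      rw [if_neg (by omega), if_neg (by omega)]
      exact ⟨rfl, rfl⟩
  have kk : cor a b k k = a k ∧ cor a b (k + 1) k = b k := by
    unfold cor
    rw [if_neg (lt_irrefl _), if_pos (Nat.lt_succ_self _)]
    exact ⟨rfl, rfl⟩
  rcases le_total (a k) (b k) with h | h
  · left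
    constructor
    · funext j
      by_cases hj : j = k
      · subst hj
        rw [lo_self, kk.1, min_eq_left h]
      · exact ((key j hj).1).symm
    · funext j
      by_cases hj : j = k
      · subst hj
        rw [line_apply_self, lo_self, kk.2, min_eq_left h, len_cast, abs_of_nonpos (by linarith)]
        ring
      · rw [line_apply_ne _ hj]
        exact ((key j hj).2).symm
  · right
    constructor
    · funext j
      by_cases hj : j = k
      · subst hj
        rw [lo_self, kk.2, min_eq_right h]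
      · exact ((key j hj).2).symm
    · funext j
      by_cases hj : j = k
      · subst hj
        rw [line_apply_self, lo_self, kk.1, min_eq_right h, len_cast, abs_of_nonneg (by linarith)]
        ring
      · rw [line_apply_ne _ hj]
        exact ((key j hj).1).symm

theorem conn_stair (a b : Vx d) (ω : Set (Ed d))
    (h : ∀ k : Fin d, conn ω (lo a b k) (lo a b k + (len a b k : ℤ) • uv k)) : conn ω a b := by
  have key : ∀ n, n ≤ d → conn ω a (cor a b n) := by
    intro n
    induction n with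
    | zero => intro _; rw [cor_zero]; exact conn_refl _ _
    | succ n ih =>
      intro hn
      have h1 := ih (by omega)
      have h2 := h ⟨n, hn⟩
      have h3 := seg_ends a b ⟨n, hn⟩
      simp only [] at h3
      rcases h3 with ⟨e1, e2⟩ | ⟨e1, e2⟩
      · rw [e2, e1] at h2
        exact conn_trans h1 h2
      · rw [e2, e1] at h2
        exact conn_trans h1 (conn_symm h2)
  have := key d le_rfl
  rw [cor_last] at this
  exact this

/-- Staircase edges. -/
def stE (a b : Vx d) : Finset (Ed d) :=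
  Finset.univ.biUnion (fun k : Fin d => ln (lo a b k) k (len a b k))

theorem conn_stE (a b : Vx d) (ω : Set (Ed d)) (h : ↑(stE a b) ⊆ ω) : conn ω a b := by
  apply conn_stair
  intro k
  apply conn_ln
  intro e he
  apply h
  rw [Finset.mem_coe] at he ⊢
  unfold stE
  rw [Finset.mem_biUnion]
  exact ⟨k, Finset.mem_univ k, he⟩

theorem card_stE (a b : Vx d) (r : ℕ) (h : ∀ i, |a i - b i| ≤ (r : ℤ)) : (stE a b).card ≤ d * r := by
  unfold stE
  refine le_trans Finset.card_biUnion_le ?_
  refine le_trans (Finset.sum_le_card_nsmul _ _ r (fun k _ => ?_)) ?_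
  · refine le_trans (card_ln _ _ _) ?_
    have := h k
    rw [← len_cast] at this
    exact_mod_cast this
  · rw [Finset.card_univ, Fintype.card_fin, smul_eq_mul]

/-- Points of a segment stay in every cube that contains the end points. -/
theorem py_cube (a b : Vx d) (k : Fin d) (c : ℕ) (hc : c ≤ len a b k) (v : Vx d) (r : ℤ)
    (ha : a ∈ cube v r) (hb : b ∈ cube v r) : py a b k c ∈ cube v r := by
  rw [mem_cube] at ha hb ⊢
  intro i
  rcases lt_trichotomy i k with h | h | h
  · rw [py_lt _ _ h]; exact hb i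
  · subst h
    rw [py_self]
    have h1 := abs_le.mp (ha i)
    have h2 := abs_le.mp (hb i)
    have h3 : (c : ℤ) ≤ |a i - b i| := by rw [← len_cast]; exact_mod_cast hc
    rw [abs_le]
    rcases le_total (a i) (b i) with h | h
    · rw [min_eq_left h]
      rw [abs_of_nonpos (by linarith)] at h3
      constructor <;> linarith
    · rw [min_eq_right h]
      rw [abs_of_nonneg (by linarith)] at h3
      constructor <;> linarith
  · rw [py_gt _ _ h]; exact ha i

/-- l1 distance. -/
def l1 (a b : Vx d) : ℕ := ∑ i, (a i - b i).natAbs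

theorem l1_py_lt (a b : Vx d) (k : Fin d) (c : ℕ) (h0 : 0 < c) (hc : c < len a b k) :
    l1 (py a b k c) b < l1 a b ∧ l1 a (py a b k c) < l1 a b := by
  have h3 : (c : ℤ) < |a k - b k| := by rw [← len_cast]; exact_mod_cast hc
  unfold l1
  constructor
  · apply Finset.sum_lt_sum
    · intro i _
      rcases lt_trichotomy i k with h | h | h
      · rw [py_lt _ _ h]; simp
      · subst h
        rw [py_self]
        rcases le_total (a i) (b i) with h | h
        · rw [min_eq_left h]
          rw [abs_of_nonpos (by linarith)] at h3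
          omega
        · rw [min_eq_right h]
          rw [abs_of_nonneg (by linarith)] at h3
          omega
      · rw [py_gt _ _ h]
    · refine ⟨k, Finset.mem_univ k, ?_⟩
      rw [py_self]
      rcases le_total (a k) (b k) with h | h
      · rw [min_eq_left h]
        rw [abs_of_nonpos (by linarith)] at h3
        omega
      · rw [min_eq_right h]
        rw [abs_of_nonneg (by linarith)] at h3
        omega
  · apply Finset.sum_lt_sum
    · intro i _
      rcases lt_trichotomy i k with h | h | h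
      · rw [py_lt _ _ h]
      · subst h
        rw [py_self]
        rcases le_total (a i) (b i) with h | h
        · rw [min_eq_left h]
          rw [abs_of_nonpos (by linarith)] at h3
          omega
        · rw [min_eq_right h]
          rw [abs_of_nonneg (by linarith)] at h3
          omega
      · rw [py_gt _ _ h]; simp
    · refine ⟨k, Finset.mem_univ k, ?_⟩
      rw [py_self]
      rcases le_total (a k) (b k) with h | h
      · rw [min_eq_left h]
        rw [abs_of_nonpos (by linarith)] at h3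
        omega
      · rw [min_eq_right h]
        rw [abs_of_nonneg (by linarith)] at h3
        omega

end stair

/-! ### The plan -/

section plan

variable {d : ℕ} (R t : ℕ) (w w' : Fin d → Vx d)

/-- Distance to `A` and `B` allowed at the ends. -/
def rho : ℕ := 2 * R + t + 1

/-- Pieces of the staircase from `a` to `b`. -/
def lps (a b : Vx d) : List (Pc d) :=
  (List.finRange d).flatMap (fun k => sps R t w w' (lo a b k) k (len a b k))

/-- Edges to open along the staircase. -/
def lJ (a b : Vx d) : Finset (Ed d) :=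
  Finset.univ.biUnion (fun k : Fin d => sJ R t w w' (lo a b k) k (len a b k))

/-- The plan of the class `(u1, u2, a, b)`. -/
def plan (u1 u2 a b : Vx d) : Plan d :=
  ⟨a, b, lps R t w w' u1 u2, stE a u1 ∪ lJ R t w w' u1 u2 ∪ stE u2 b⟩

theorem mem_lps (a b : Vx d) (q : Pc d) :
    q ∈ lps R t w w' a b ↔ ∃ k, q ∈ sps R t w w' (lo a b k) k (len a b k) := by
  unfold lps
  rw [List.mem_flatMap]
  constructor
  · rintro ⟨k, _, h⟩
    exact ⟨k, h⟩
  · rintro ⟨k, h⟩
    exact ⟨k, List.mem_finRange k, h⟩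

theorem length_lps (a b : Vx d) :
    (lps R t w w' a b).length = ∑ k : Fin d, 2 * rr R t (len a b k) := by
  unfold lps
  rw [List.length_flatMap]
  have h1 : (fun k : Fin d => (sps R t w w' (lo a b k) k (len a b k)).length)
      = fun k => 2 * rr R t (len a b k) := by
    funext k
    unfold sps
    rw [List.length_map, List.length_range]
  rw [h1]
  exact (List.sum_ofFn (f := fun k : Fin d => 2 * rr R t (len a b k))) ▸ (by
    rw [List.ofFn_eq_map])

theorem length_lps_le (a b : Vx d) (v : Vx d) (m : ℕ) (ha : a ∈ cube v m) (hb : b ∈ cube v m) :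
    (lps R t w w' a b).length * (R + t + 1) ≤ 2 * d * m := by
  rw [length_lps, Finset.sum_mul]
  have h1 : ∀ k ∈ (Finset.univ : Finset (Fin d)),
      2 * rr R t (len a b k) * (R + t + 1) ≤ 2 * m := by
    intro k _
    have h1 := rr_le R t (len a b k)
    have h2 : (len a b k : ℤ) ≤ 2 * m := by
      rw [len_cast]
      have h3 := abs_le.mp ((mem_cube _ _ _).mp ha k)
      have h4 := abs_le.mp ((mem_cube _ _ _).mp hb k)
      rw [abs_le]
      constructor <;> linarith
    have h3 : len a b k ≤ 2 * m := by exact_mod_cast h2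
    unfold Dg at h1
    omega
  refine le_trans (Finset.sum_le_card_nsmul _ _ (2 * m) h1) ?_
  rw [Finset.card_univ, Fintype.card_fin, smul_eq_mul]
  exact le_of_eq (by ring)

theorem card_lJ (a b : Vx d) : (lJ R t w w' a b).card
    ≤ (t + 1) * (lps R t w w' a b).length + d * (2 * Mg R t + 2 * Dg R t) := by
  unfold lJ
  refine le_trans Finset.card_biUnion_le ?_
  refine le_trans (Finset.sum_le_sum (fun k _ => card_sJ R t w w' (lo a b k) k (len a b k))) ?_
  rw [Finset.sum_add_distrib, ← Finset.mul_sum, length_lps, Finset.sum_const, Finset.card_univ,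
    Fintype.card_fin, smul_eq_mul]

theorem conn_plan (u1 u2 a b : Vx d) (ω : Set (Ed d))
    (h : ∀ q ∈ lps R t w w' u1 u2,
      conn (ω ∩ ↑(edg (hcube q.z q.k (R : ℤ)))) (q.st w) (q.en w' R)) :
    conn (ω ∪ ↑((plan R t w w' u1 u2 a b).J)) a b := by
  have hJ : (plan R t w w' u1 u2 a b).J = stE a u1 ∪ lJ R t w w' u1 u2 ∪ stE u2 b := rfl
  rw [hJ]
  set Ω : Set (Ed d) := ω ∪ ↑(stE a u1 ∪ lJ R t w w' u1 u2 ∪ stE u2 b) with hΩ
  have h1 : conn Ω a u1 := by
    apply conn_stE
    intro e he
    right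
    rw [Finset.mem_coe] at he ⊢
    rw [Finset.mem_union, Finset.mem_union]
    left; left
    exact he
  have h3 : conn Ω u2 b := by
    apply conn_stE
    intro e he
    right
    rw [Finset.mem_coe] at he ⊢
    rw [Finset.mem_union]
    right
    exact he
  have h2 : conn Ω u1 u2 := by
    apply conn_stair
    intro k
    refine conn_mono ?_ (conn_seg R t w w' (lo u1 u2 k) k (len u1 u2 k) ω (fun q hq =>
      h q ((mem_lps R t w w' u1 u2 q).mpr ⟨k, hq⟩)))
    intro e he
    rcases he with he | he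
    · left; exact he
    · right
      rw [Finset.mem_coe] at he ⊢
      rw [Finset.mem_union, Finset.mem_union]
      left; right
      unfold lJ
      rw [Finset.mem_biUnion]
      exact ⟨k, Finset.mem_univ k, he⟩
  exact conn_trans h1 (conn_trans h2 h3)

/-- Location of the pieces of a staircase. -/
theorem lps_loc (hw : ∀ k, w k k = 0 ∧ ∀ j, |w k j| ≤ (R : ℤ))
    (hw' : ∀ k, w' k k = 0 ∧ ∀ j, |w' k j| ≤ (R : ℤ)) (a b : Vx d) (k : Fin d) (q : Pc d)
    (hq : q ∈ sps R t w w' (lo a b k) k (len a b k)) :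
    q.k = k ∧ ∃ c : ℕ, Mg R t ≤ c ∧ c + Dg R t + Mg R t ≤ len a b k ∧
      q.z k = py a b k c k ∧ ∀ j, |q.z j - py a b k c j| ≤ (R : ℤ) := by
  obtain ⟨h1, i, h2, h3, h4, h5, h6⟩ := sps_loc R t w w' hw hw' _ _ _ _ hq
  refine ⟨h1, Mg R t + i * Dg R t, by omega, by omega, ?_, h6⟩
  rw [h5, py_self, lo_self]

theorem cube_near {z y : Vx d} {r s : ℤ} (h : ∀ j, |z j - y j| ≤ r) {u : Vx d}
    (hu : u ∈ cube z s) (j : Fin d) : |u j - y j| ≤ r + s := by
  have h1 := (mem_cube _ _ _).mp hu j
  calc |u j - y j| = |(u j - z j) + (z j - y j)| := by ring_nf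
    _ ≤ |u j - z j| + |z j - y j| := abs_add_le _ _
    _ ≤ s + r := add_le_add h1 (h j)
    _ = r + s := by ring

theorem pair_seg (hw : ∀ k, w k k = 0 ∧ ∀ j, |w k j| ≤ (R : ℤ))
    (hw' : ∀ k, w' k k = 0 ∧ ∀ j, |w' k j| ≤ (R : ℤ)) (x : Vx d) (k : Fin d) (l : ℕ) :
    (sps R t w w' x k l).Pairwise
      (fun q q' => ∀ y ∈ cube q.z ((R : ℤ) + t), y ∉ hcube q'.z q'.k (R : ℤ)) := by
  unfold sps
  rw [List.pairwise_map]
  refine List.Pairwise.imp ?_ (List.pairwise_lt_range)
  intro i j hij y hy hy'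
  rw [mem_hcube] at hy'
  have h1 : (pc R t w w' x k j).k = k := rfl
  have h2 : (pc R t w w' x k j).z k = x k + ((Mg R t + j * Dg R t : ℕ) : ℤ) := by
    unfold pc
    simp only []
    rw [Pi.add_apply, line_apply_self]
    have : (if j % 2 = 0 then - w k else w' k : Vx d) k = 0 := by
      split_ifs
      · rw [Pi.neg_apply, (hw k).1, neg_zero]
      · exact (hw' k).1
    rw [this, add_zero]
  have h3 : (pc R t w w' x k i).z k = x k + ((Mg R t + i * Dg R t : ℕ) : ℤ) := by
    unfold pc
    simp only []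
    rw [Pi.add_apply, line_apply_self]
    have : (if i % 2 = 0 then - w k else w' k : Vx d) k = 0 := by
      split_ifs
      · rw [Pi.neg_apply, (hw k).1, neg_zero]
      · exact (hw' k).1
    rw [this, add_zero]
  have h4 := hy'.2
  rw [h1, h2] at h4
  have h5 := abs_le.mp ((mem_cube _ _ _).mp hy k)
  rw [h3] at h5
  have h6 : (i + 1) * Dg R t ≤ j * Dg R t := Nat.mul_le_mul_right _ hij
  rw [add_mul, one_mul] at h6
  have h7 : ((Mg R t + i * Dg R t : ℕ) : ℤ) + (Dg R t : ℤ) ≤ ((Mg R t + j * Dg R t : ℕ) : ℤ) := by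
    exact_mod_cast (by omega : Mg R t + i * Dg R t + Dg R t ≤ Mg R t + j * Dg R t)
  have h8 : (Dg R t : ℤ) = R + t + 1 := by unfold Dg; push_cast; ring
  rw [h8] at h7
  linarith [h5.2]

theorem pair_lps (hw : ∀ k, w k k = 0 ∧ ∀ j, |w k j| ≤ (R : ℤ))
    (hw' : ∀ k, w' k k = 0 ∧ ∀ j, |w' k j| ≤ (R : ℤ)) (a b : Vx d) :
    (lps R t w w' a b).Pairwise
      (fun q q' => ∀ y ∈ cube q.z ((R : ℤ) + t), y ∉ hcube q'.z q'.k (R : ℤ)) := by
  unfold lps
  rw [List.pairwise_flatMap]
  refine ⟨fun k _ => pair_seg R t w w' hw hw' _ _ _, ?_⟩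
  refine List.Pairwise.imp ?_ (List.pairwise_lt_finRange d)
  intro k k' hk q hq q' hq' y hy hy'
  obtain ⟨e1, c, c1, c2, c3, c4⟩ := lps_loc R t w w' hw hw' a b k q hq
  obtain ⟨e1', c', c1', c2', c3', c4'⟩ := lps_loc R t w w' hw hw' a b k' q' hq'
  rw [mem_hcube] at hy'
  have f1 := abs_le.mp ((mem_cube _ _ _).mp hy k)
  rw [c3, py_self] at f1
  have f2 := abs_le.mp (cube_near c4' hy'.1 k)
  rw [py_lt a b hk c'] at f2
  have f3 : (c : ℤ) + Dg R t + Mg R t ≤ |a k - b k| := by
    rw [← len_cast]; exact_mod_cast c2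
  have f4 : (Mg R t : ℤ) ≤ c := by exact_mod_cast c1
  have f5 : (Mg R t : ℤ) = 3 * R + 2 * t + 1 := by unfold Mg; push_cast; ring
  have f6 : (Dg R t : ℤ) = R + t + 1 := by unfold Dg; push_cast; ring
  rw [f5] at f3 f4
  rw [f6] at f3
  rcases le_total (a k) (b k) with h | h
  · rw [min_eq_left h] at f1
    rw [abs_of_nonpos (by linarith)] at f3
    linarith [f1.2, f2.1]
  · rw [min_eq_right h] at f1
    rw [abs_of_nonneg (by linarith)] at f3
    linarith [f1.1, f2.2]

theorem cube_lps (hw : ∀ k, w k k = 0 ∧ ∀ j, |w k j| ≤ (R : ℤ))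
    (hw' : ∀ k, w' k k = 0 ∧ ∀ j, |w' k j| ≤ (R : ℤ)) (a b : Vx d) (v : Vx d) (m C : ℕ)
    (hC : 2 * R + t ≤ C) (ha : a ∈ cube v m) (hb : b ∈ cube v m) (q : Pc d)
    (hq : q ∈ lps R t w w' a b) : cube q.z ((R : ℤ) + t) ⊆ cube v ((m : ℤ) + C) := by
  intro y hy
  rw [mem_lps] at hq
  obtain ⟨k, hq⟩ := hq
  obtain ⟨e1, c, c1, c2, c3, c4⟩ := lps_loc R t w w' hw hw' a b k q hq
  rw [mem_cube]
  intro i
  have f1 := cube_near c4 hy i
  have f2 := (mem_cube _ _ _).mp (py_cube a b k c (by omega) v m ha hb) i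
  have f3 : (2 * R + t : ℤ) ≤ C := by exact_mod_cast hC
  calc |y i - v i| = |(y i - py a b k c i) + (py a b k c i - v i)| := by ring_nf
    _ ≤ |y i - py a b k c i| + |py a b k c i - v i| := abs_add_le _ _
    _ ≤ (R + (R + t)) + m := add_le_add f1 f2
    _ ≤ m + C := by linarith

theorem J_plan (hw : ∀ k, w k k = 0 ∧ ∀ j, |w k j| ≤ (R : ℤ))
    (hw' : ∀ k, w' k k = 0 ∧ ∀ j, |w' k j| ≤ (R : ℤ)) (u1 u2 a b : Vx d) (v : Vx d) (m C : ℕ)
    (hC : 2 * R + t + 1 ≤ C) (h1 : u1 ∈ cube v m) (h2 : u2 ∈ cube v m)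
    (ha : a ∈ cube u1 (rho R t : ℤ)) (hb : b ∈ cube u2 (rho R t : ℤ)) :
    (plan R t w w' u1 u2 a b).J ⊆ edg (cube v ((m : ℤ) + C)) := by
  have hJ : (plan R t w w' u1 u2 a b).J = stE a u1 ∪ lJ R t w w' u1 u2 ∪ stE u2 b := rfl
  rw [hJ]
  have hC' : (2 * R + t + 1 : ℤ) ≤ C := by exact_mod_cast hC
  have hr : (rho R t : ℤ) = 2 * R + t + 1 := by unfold rho; push_cast; ring
  have big : ∀ u ∈ cube v (m : ℤ), u ∈ cube v ((m : ℤ) + C) := by
    intro u hu
    rw [mem_cube] at hu ⊢
    intro i
    linarith [hu i]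
  have near : ∀ u ∈ cube v (m : ℤ), ∀ y ∈ cube u (rho R t : ℤ), y ∈ cube v ((m : ℤ) + C) := by
    intro u hu y hy
    rw [mem_cube] at hu hy ⊢
    intro i
    calc |y i - v i| = |(y i - u i) + (u i - v i)| := by ring_nf
      _ ≤ |y i - u i| + |u i - v i| := abs_add_le _ _
      _ ≤ rho R t + m := add_le_add (hy i) (hu i)
      _ ≤ m + C := by rw [hr]; linarith
  have st : ∀ x y : Vx d, x ∈ cube v ((m : ℤ) + C) → y ∈ cube v ((m : ℤ) + C) →
      stE x y ⊆ edg (cube v ((m : ℤ) + C)) := by
    intro x y hx hy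
    unfold stE
    rw [Finset.biUnion_subset]
    intro k _
    apply ln_sub
    intro c hc
    exact py_cube x y k c hc v _ hx hy
  apply Finset.union_subset
  · apply Finset.union_subset
    · exact st _ _ (near u1 h1 a ha) (big _ h1)
    · unfold lJ
      rw [Finset.biUnion_subset]
      intro k _
      unfold sJ
      apply Finset.union_subset
      · by_cases h0 : rr R t (len u1 u2 k) = 0
        · rw [if_pos h0]
          apply ln_sub
          intro c hc
          exact big _ (py_cube u1 u2 k c hc v _ h1 h2)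
        · rw [if_neg h0]
          have hle : Mg R t + 2 * rr R t (len u1 u2 k) * Dg R t ≤ len u1 u2 k := by
            have h1 := rr_le R t (len u1 u2 k)
            have h2 : 0 < 2 * rr R t (len u1 u2 k) * Dg R t := by
              have := Dg_pos R t
              positivity
            omega
          apply Finset.union_subset
          · apply ln_sub
            intro c hc
            exact big _ (py_cube u1 u2 k c (by omega) v _ h1 h2)
          · apply ln_sub
            intro c hc
            have : lo u1 u2 k + ((Mg R t + 2 * rr R t (len u1 u2 k) * Dg R t : ℕ) : ℤ) • uv k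
                + (c : ℤ) • uv k
                = py u1 u2 k (Mg R t + 2 * rr R t (len u1 u2 k) * Dg R t + c) := by
              unfold py
              rw [add_assoc, ← add_smul]
              push_cast
              ring_nf
            rw [this]
            exact big _ (py_cube u1 u2 k _ (by omega) v _ h1 h2)
      · rw [Finset.biUnion_subset]
        intro i hi
        rw [Finset.mem_range] at hi
        apply ln_sub
        intro c hc
        have hle : Mg R t + i * Dg R t + R + c ≤ len u1 u2 k := by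
          have h1 := rr_le R t (len u1 u2 k)
          have h2 : (i + 1) * Dg R t ≤ 2 * rr R t (len u1 u2 k) * Dg R t :=
            Nat.mul_le_mul_right _ hi
          have h3 : 0 < 2 * rr R t (len u1 u2 k) * Dg R t := by
            have := Dg_pos R t
            have : 0 < 2 * rr R t (len u1 u2 k) := by omega
            positivity
          rw [add_mul, one_mul] at h2
          have h4 : Dg R t = R + t + 1 := rfl
          omega
        have hp := py_cube u1 u2 k _ hle v (m : ℤ) h1 h2
        rw [mem_cube] at hp ⊢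
        intro j
        have e1 : (ep R t w w' (lo u1 u2 k) k i + (c : ℤ) • uv k) j
            = py u1 u2 k (Mg R t + i * Dg R t + R + c) j
              + (if i % 2 = 0 then w' k - w k else 0 : Vx d) j := by
          unfold ep py
          simp only [Pi.add_apply, Pi.smul_apply, smul_eq_mul]
          push_cast
          ring
        rw [e1]
        have e2 : |(if i % 2 = 0 then w' k - w k else 0 : Vx d) j| ≤ 2 * (R : ℤ) := by
          split_ifs
          · rw [Pi.sub_apply]
            have g1 := abs_le.mp ((hw k).2 j)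
            have g2 := abs_le.mp ((hw' k).2 j)
            rw [abs_le]
            constructor <;> linarith
          · rw [Pi.zero_apply, abs_zero]
            positivity
        have e3 := hp j
        have e4 := abs_le.mp e2
        have e5 := abs_le.mp e3
        have e6 : (0 : ℤ) ≤ t := by positivity
        rw [abs_le]
        constructor <;> linarith
  · exact st _ _ (big _ h2) (near u2 h2 b hb)

end plan

/-- GEOMETRY OF THE GLUING LEMMA. -/
theorem geo {d : ℕ} (R t : ℕ) (w w' : Fin d → Vx d)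
    (hw : ∀ k, w k k = 0 ∧ ∀ j, |w k j| ≤ (R : ℤ))
    (hw' : ∀ k, w' k k = 0 ∧ ∀ j, |w' k j| ≤ (R : ℤ)) :
    ∃ C : ℕ, ∀ (v : Vx d) (m : ℕ), ∃ P : Finset (Plan d),
      P.card ≤ C * (m + 1) ^ (4 * d) ∧
      (∀ p ∈ P, p.ps.length * (R + t + 1) ≤ 2 * d * m ∧
        p.J.card ≤ (t + 1) * p.ps.length + C ∧
        p.ps.Pairwise (fun q q' => ∀ y ∈ cube q.z ((R : ℤ) + t), y ∉ hcube q'.z q'.k (R : ℤ)) ∧
        (∀ q ∈ p.ps, cube q.z ((R : ℤ) + t) ⊆ cube v ((m : ℤ) + C)) ∧
        p.J ⊆ edg (cube v ((m : ℤ) + C)) ∧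
        (∀ ω : Set (Ed d), (∀ q ∈ p.ps,
          conn (ω ∩ ↑(edg (hcube q.z q.k (R : ℤ)))) (q.st w) (q.en w' R)) →
          conn (ω ∪ ↑p.J) p.a p.b)) ∧
      (∀ A B : Set (Vx d), (∃ a ∈ A, a ∈ cube v (m : ℤ)) → (∃ b ∈ B, b ∈ cube v (m : ℤ)) →
        ∃ p ∈ P, p.a ∈ A ∧ p.b ∈ B ∧
          ∀ q ∈ p.ps, ∀ y ∈ cube q.z ((R : ℤ) + t), ∀ u ∈ A ∪ B, ∃ i, 1 < |y i - u i|) := by
  classical
  set ρ : ℕ := rho R t with hρ
  refine ⟨d * (2 * Mg R t + 2 * Dg R t) + 2 * (d * ρ) + ρ + 2 ^ (2 * d) * (2 * ρ + 1) ^ (2 * d),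
    ?_⟩
  intro v m
  set C : ℕ := d * (2 * Mg R t + 2 * Dg R t) + 2 * (d * ρ) + ρ
    + 2 ^ (2 * d) * (2 * ρ + 1) ^ (2 * d) with hCdef
  have hρv : ρ = 2 * R + t + 1 := rfl
  have hC1 : 2 * R + t + 1 ≤ C := by
    rw [hCdef, ← hρv]
    omega
  refine ⟨(cube v (m : ℤ) ×ˢ cube v (m : ℤ)).biUnion (fun u =>
    (cube u.1 (ρ : ℤ) ×ˢ cube u.2 (ρ : ℤ)).image (fun ab => plan R t w w' u.1 u.2 ab.1 ab.2)),
    ?_, ?_, ?_⟩
  · refine le_trans Finset.card_biUnion_le ?_
    have h1 : ∀ u ∈ cube v (m : ℤ) ×ˢ cube v (m : ℤ),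
        ((cube u.1 (ρ : ℤ) ×ˢ cube u.2 (ρ : ℤ)).image
          (fun ab => plan R t w w' u.1 u.2 ab.1 ab.2)).card ≤ (2 * ρ + 1) ^ (2 * d) := by
      intro u _
      refine le_trans Finset.card_image_le ?_
      rw [Finset.card_product, card_cube, card_cube, ← pow_add, two_mul d]
    refine le_trans (Finset.sum_le_card_nsmul _ _ _ h1) ?_
    rw [Finset.card_product, card_cube, ← pow_add, ← two_mul d, smul_eq_mul]
    have h2 : (2 * m + 1) ^ (2 * d) ≤ 2 ^ (2 * d) * (m + 1) ^ (2 * d) := by
      rw [← mul_pow]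
      exact Nat.pow_le_pow_left (by omega) _
    have h3 : (m + 1) ^ (2 * d) ≤ (m + 1) ^ (4 * d) := Nat.pow_le_pow_right (by omega) (by omega)
    calc (2 * m + 1) ^ (2 * d) * (2 * ρ + 1) ^ (2 * d)
        ≤ (2 ^ (2 * d) * (m + 1) ^ (2 * d)) * (2 * ρ + 1) ^ (2 * d) :=
          Nat.mul_le_mul_right _ h2
      _ = (2 ^ (2 * d) * (2 * ρ + 1) ^ (2 * d)) * (m + 1) ^ (2 * d) := by ring
      _ ≤ C * (m + 1) ^ (4 * d) := Nat.mul_le_mul (by rw [hCdef]; omega) h3
  · intro p hp
    rw [Finset.mem_biUnion] at hp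
    obtain ⟨u, hu, hp⟩ := hp
    rw [Finset.mem_image] at hp
    obtain ⟨ab, hab, rfl⟩ := hp
    rw [Finset.mem_product] at hu hab
    refine ⟨length_lps_le R t w w' u.1 u.2 v m hu.1 hu.2, ?_, pair_lps R t w w' hw hw' u.1 u.2,
      ?_, ?_, ?_⟩
    · have hJ : (plan R t w w' u.1 u.2 ab.1 ab.2).J
          = stE ab.1 u.1 ∪ lJ R t w w' u.1 u.2 ∪ stE u.2 ab.2 := rfl
      have hps : (plan R t w w' u.1 u.2 ab.1 ab.2).ps = lps R t w w' u.1 u.2 := rfl
      rw [hJ, hps]
      have h1 : (stE ab.1 u.1).card ≤ d * ρ := by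
        apply card_stE
        intro i
        exact (mem_cube _ _ _).mp hab.1 i
      have h2 : (stE u.2 ab.2).card ≤ d * ρ := by
        apply card_stE
        intro i
        rw [abs_sub_comm]
        exact (mem_cube _ _ _).mp hab.2 i
      have h3 := card_lJ R t w w' u.1 u.2
      have h4 := Finset.card_union_le (stE ab.1 u.1 ∪ lJ R t w w' u.1 u.2) (stE u.2 ab.2)
      have h5 := Finset.card_union_le (stE ab.1 u.1) (lJ R t w w' u.1 u.2)
      rw [hCdef]
      omega
    · intro q hq
      exact cube_lps R t w w' hw hw' u.1 u.2 v m C (by omega) hu.1 hu.2 q hq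
    · exact J_plan R t w w' hw hw' u.1 u.2 ab.1 ab.2 v m C hC1 hu.1 hu.2 hab.1 hab.2
    · intro ω h
      exact conn_plan R t w w' u.1 u.2 ab.1 ab.2 ω h
  · intro A B hA hB
    set NA : Finset (Vx d) := (cube v (m : ℤ)).filter (fun y => ∃ a ∈ A, a ∈ cube y (ρ : ℤ)) with hNA
    set NB : Finset (Vx d) := (cube v (m : ℤ)).filter (fun y => ∃ b ∈ B, b ∈ cube y (ρ : ℤ)) with hNB
    have hself : ∀ y : Vx d, y ∈ cube y (ρ : ℤ) := by
      intro y
      rw [mem_cube]
      intro i
      rw [sub_self, abs_zero]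
      positivity
    have hne : (NA ×ˢ NB).Nonempty := by
      obtain ⟨a, ha, ha'⟩ := hA
      obtain ⟨b, hb, hb'⟩ := hB
      refine ⟨(a, b), ?_⟩
      rw [Finset.mem_product, hNA, hNB, Finset.mem_filter, Finset.mem_filter]
      exact ⟨⟨ha', a, ha, hself a⟩, ⟨hb', b, hb, hself b⟩⟩
    obtain ⟨u, hu, hmin⟩ := Finset.exists_min_image (NA ×ˢ NB) (fun u => l1 u.1 u.2) hne
    rw [Finset.mem_product, hNA, hNB, Finset.mem_filter, Finset.mem_filter] at hu
    obtain ⟨⟨hu1, a, ha, ha'⟩, ⟨hu2, b, hb, hb'⟩⟩ := hu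
    refine ⟨plan R t w w' u.1 u.2 a b, ?_, ha, hb, ?_⟩
    · rw [Finset.mem_biUnion]
      refine ⟨u, Finset.mem_product.mpr ⟨hu1, hu2⟩, ?_⟩
      rw [Finset.mem_image]
      exact ⟨(a, b), Finset.mem_product.mpr ⟨ha', hb'⟩, rfl⟩
    · intro q hq y hy z hz
      have hq' : q ∈ lps R t w w' u.1 u.2 := hq
      rw [mem_lps] at hq'
      obtain ⟨k, hq'⟩ := hq'
      obtain ⟨e1, c, c1, c2, c3, c4⟩ := lps_loc R t w w' hw hw' u.1 u.2 k q hq'
      have hM : 0 < Mg R t := by unfold Mg; omega
      have hD := Dg_pos R t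
      have hlt := l1_py_lt u.1 u.2 k c (by omega) (by omega)
      have hcube := py_cube u.1 u.2 k c (by omega) v (m : ℤ) hu1 hu2
      have hfar : z ∉ cube (py u.1 u.2 k c) (ρ : ℤ) := by
        intro hzz
        rcases hz with hz | hz
        · have h1 : (py u.1 u.2 k c, u.2) ∈ NA ×ˢ NB := by
            rw [Finset.mem_product, hNA, hNB, Finset.mem_filter, Finset.mem_filter]
            exact ⟨⟨hcube, z, hz, hzz⟩, ⟨hu2, b, hb, hb'⟩⟩
          have h2 := hmin _ h1
          simp only [] at h2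
          omega
        · have h1 : (u.1, py u.1 u.2 k c) ∈ NA ×ˢ NB := by
            rw [Finset.mem_product, hNA, hNB, Finset.mem_filter, Finset.mem_filter]
            exact ⟨⟨hu1, a, ha, ha'⟩, ⟨hcube, z, hz, hzz⟩⟩
          have h2 := hmin _ h1
          simp only [] at h2
          omega
      rw [mem_cube, not_forall] at hfar
      obtain ⟨i, hi⟩ := hfar
      refine ⟨i, ?_⟩
      have f1 := cube_near c4 hy i
      have f2 : (ρ : ℤ) = 2 * R + t + 1 := by rw [hρv]; push_cast; ring
      rw [not_le, f2] at hi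
      have f3 : |z i - py u.1 u.2 k c i| ≤ |y i - z i| + |y i - py u.1 u.2 k c i| := by
        calc |z i - py u.1 u.2 k c i| = |(y i - py u.1 u.2 k c i) - (y i - z i)| := by ring_nf
          _ ≤ |y i - py u.1 u.2 k c i| + |y i - z i| := abs_sub _ _
          _ = _ := by ring
      linarith

end Pool.Agent.Glu
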