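import Mathlib

/-! Block (GL): the numerical part. -/

set_option autoImplicit false

namespace Pool.Agent.Glu

open Filter

theorem num_large (C1 : ℕ) (K ε : ℝ) (hε : 0 < ε) :
    ∀ᶠ R : ℕ in atTop, C1 * Real.log ((R : ℝ) + 1) + K ≤ ε * R := by
  have h1 : ∀ᶠ y : ℝ in atTop, Real.log y ≤ ε / (4 * (C1 + 1)) * y := by
    have h2 : 0 < ε / (4 * ((C1 : ℝ) + 1)) := by positivity
    have h3 := Real.isLittleO_log_id_atTop.bound h2
    filter_upwards [h3, eventually_ge_atTop (0 : ℝ)] with y hy hy0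
    rw [Real.norm_eq_abs, id, Real.norm_eq_abs, abs_of_nonneg hy0] at hy
    exact (le_abs_self _).trans hy
  have h4 : Tendsto (fun R : ℕ => (R : ℝ) + 1) atTop atTop :=
    tendsto_atTop_add_const_right _ _ tendsto_natCast_atTop_atTop
  have h5 := h4.eventually h1
  have h6 : ∀ᶠ R : ℕ in atTop, |K| * 2 / ε ≤ (R : ℝ) :=
    tendsto_natCast_atTop_atTop.eventually (eventually_ge_atTop _)
  filter_upwards [h5, h6, eventually_ge_atTop 1] with R hR1 hR2 hR3
  have h7 : |K| ≤ ε / 2 * R := by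
    rw [div_le_iff₀ hε] at hR2
    linarith
  have h8 : (1 : ℝ) ≤ R := by exact_mod_cast hR3
  have h9 : (C1 : ℝ) * Real.log ((R : ℝ) + 1) ≤ ε / 2 * R := by
    have h10 : (0 : ℝ) ≤ C1 := Nat.cast_nonneg _
    have h11 := mul_le_mul_of_nonneg_left hR1 h10
    refine h11.trans ?_
    have h12 : (C1 : ℝ) * (ε / (4 * (C1 + 1)) * (R + 1)) =
        (C1 / (C1 + 1)) * (ε / 4 * (R + 1)) := by
      field_simp
    rw [h12]
    have h13 : (C1 : ℝ) / (C1 + 1) ≤ 1 := by
      rw [div_le_one (by positivity)]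
      linarith
    have h14 : 0 ≤ ε / 4 * ((R : ℝ) + 1) := by positivity
    have h15 := mul_le_mul_of_nonneg_right h13 h14
    have h16 : ε / 4 * ((R : ℝ) + 1) ≤ ε / 2 * R := by nlinarith
    linarith
  have h10 := le_abs_self K
  linarith

/-- Choice of `κ`, then of `R` and `t`. -/
theorem num (d C1 : ℕ) (a δ : ℝ) (ha0 : 0 < a) (ha1 : a < 1) (hδ : 0 < δ) :
    ∃ κ : ℝ, 0 < κ ∧ κ ≤ 1 ∧ ∀ (c : ℝ) (R0 : ℕ), 0 < c → ∃ R t : ℕ, R0 ≤ R ∧ κ * R ≤ t ∧ t ≤ R ∧
      0 < min 1 (c * ((R : ℝ) + 1)⁻¹ ^ C1) ∧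
      ∀ m L : ℕ, L * (R + t + 1) ≤ 2 * d * m →
        Real.exp (-(δ * m)) ≤ min 1 (c * ((R : ℝ) + 1)⁻¹ ^ C1) ^ L * a ^ ((t + 1) * L) := by
  set la : ℝ := -Real.log a with hla
  have hla0 : 0 < la := by
    rw [hla]
    exact neg_pos.mpr (Real.log_neg ha0 ha1)
  set δ' : ℝ := δ / (2 * d + 1) with hδ'
  have hδ0 : 0 < δ' := by positivity
  refine ⟨min 1 (δ' / (2 * la)), lt_min one_pos (by positivity), min_le_left _ _, ?_⟩
  set κ : ℝ := min 1 (δ' / (2 * la)) with hκ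
  intro c R0 hc
  have hκ1 : κ ≤ 1 := min_le_left _ _
  have hκ0 : 0 < κ := lt_min one_pos (by positivity)
  have hκla : κ * la ≤ δ' / 2 := by
    have h1 : κ ≤ δ' / (2 * la) := min_le_right _ _
    have h2 := mul_le_mul_of_nonneg_right h1 hla0.le
    refine h2.trans (le_of_eq ?_)
    field_simp
  have h3 := num_large C1 (|Real.log c| + 2 * la) (δ' / 2) (by positivity)
  obtain ⟨R, hR1, hR2⟩ := (h3.and (eventually_ge_atTop R0)).exists
  have hRpos : (0 : ℝ) < (R : ℝ) + 1 := by positivity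
  have hR0 : (0 : ℝ) ≤ R := Nat.cast_nonneg _
  have hq : 0 < c * ((R : ℝ) + 1)⁻¹ ^ C1 := by positivity
  have hp : 0 < min 1 (c * ((R : ℝ) + 1)⁻¹ ^ C1) := lt_min one_pos hq
  refine ⟨R, ⌈κ * R⌉₊, hR2, Nat.le_ceil _, ?_, hp, ?_⟩
  · rw [Nat.ceil_le]
    nlinarith
  · intro m L hL
    set p : ℝ := min 1 (c * ((R : ℝ) + 1)⁻¹ ^ C1) with hpdef
    set t : ℕ := ⌈κ * R⌉₊ with ht
    have ht1 : (t : ℝ) < κ * R + 1 := Nat.ceil_lt_add_one (by positivity)
    have h4 : -Real.log p ≤ C1 * Real.log ((R : ℝ) + 1) + |Real.log c| := by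
      have h5 : 0 ≤ Real.log ((R : ℝ) + 1) := Real.log_nonneg (by linarith)
      rcases min_choice (1 : ℝ) (c * ((R : ℝ) + 1)⁻¹ ^ C1) with h6 | h6
      · rw [hpdef, h6, Real.log_one, neg_zero]
        have := abs_nonneg (Real.log c)
        positivity
      · rw [hpdef, h6, Real.log_mul hc.ne' (by positivity), Real.log_pow, Real.log_inv]
        have := neg_abs_le (Real.log c)
        linarith
    have h5 : -Real.log p + (t + 1) * la ≤ δ' * R := by
      have h6 : ((t : ℝ) + 1) * la ≤ (κ * R + 2) * la :=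
        mul_le_mul_of_nonneg_right (by linarith) hla0.le
      have h7 : (κ * R + 2) * la = κ * la * R + 2 * la := by ring
      have h8 : κ * la * R ≤ δ' / 2 * R := mul_le_mul_of_nonneg_right hκla hR0
      linarith
    have h6 : (L : ℝ) * (R + t + 1) ≤ 2 * d * m := by exact_mod_cast hL
    have h7 : (L : ℝ) * (-Real.log p + (t + 1) * la) ≤ δ * m := by
      have hL0 : (0 : ℝ) ≤ L := Nat.cast_nonneg _
      have ht0 : (0 : ℝ) ≤ t := Nat.cast_nonneg _
      have h8 : (L : ℝ) * (-Real.log p + (t + 1) * la) ≤ L * (δ' * R) :=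
        mul_le_mul_of_nonneg_left h5 hL0
      have h9 : (L : ℝ) * (δ' * R) ≤ δ' * (L * (R + t + 1)) := by
        have h10 : 0 ≤ δ' * (L * ((t : ℝ) + 1)) := by positivity
        nlinarith
      have h10 : δ' * (L * (R + t + 1)) ≤ δ' * (2 * d * m) :=
        mul_le_mul_of_nonneg_left h6 hδ0.le
      have h11 : δ' * (2 * d * m) ≤ δ * m := by
        rw [hδ', div_mul_eq_mul_div, div_le_iff₀ (by positivity)]
        have h12 : 0 ≤ δ * (m : ℝ) := by positivity
        nlinarith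
      linarith
    have h8 : p ^ L * a ^ ((t + 1) * L) = Real.exp (-(L * (-Real.log p + (t + 1) * la))) := by
      have h9 : -((L : ℝ) * (-Real.log p + (t + 1) * la)) =
          L * Real.log p + (((t + 1) * L : ℕ) : ℝ) * Real.log a := by
        rw [hla]
        push_cast
        ring
      rw [h9, Real.exp_add, Real.exp_nat_mul, Real.exp_nat_mul, Real.exp_log hp, Real.exp_log ha0]
    rw [h8]
    exact Real.exp_le_exp.mpr (by linarith)

/-- Polynomials against exponentials. -/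
theorem num_poly (k : ℕ) (δ : ℝ) (hδ : 0 < δ) :
    ∃ K : ℝ, 0 < K ∧ ∀ m : ℕ, ((m : ℝ) + 1) ^ k ≤ K * Real.exp (δ * m) := by
  refine ⟨(k.factorial : ℝ) / δ ^ k * Real.exp δ, by positivity, fun m => ?_⟩
  have h1 : 0 ≤ δ * ((m : ℝ) + 1) := by positivity
  have h2 := Real.pow_div_factorial_le_exp (δ * ((m : ℝ) + 1)) h1 k
  have h3 : (0 : ℝ) < k.factorial := by exact_mod_cast k.factorial_pos
  rw [div_le_iff₀ h3, mul_pow] at h2
  have h4 : Real.exp (δ * ((m : ℝ) + 1)) = Real.exp δ * Real.exp (δ * m) := by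
    rw [← Real.exp_add]
    congr 1
    ring
  rw [h4] at h2
  have h5 : (0 : ℝ) < δ ^ k := by positivity
  have h6 : ((m : ℝ) + 1) ^ k ≤ (Real.exp δ * Real.exp (δ * m) * k.factorial) / δ ^ k := by
    rw [le_div_iff₀ h5]
    linarith
  refine h6.trans (le_of_eq ?_)
  ring

end Pool.Agent.Glu
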