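import Pool.Agent.SRC.Bern

/-! Block (GL), file 1: opening a deterministic set of edges one by one. -/

set_option autoImplicit false

namespace Pool.Agent.Glu

open Finset Pool.Agent.SRC

theorem EB_single {d : ℕ} (p : ℝ) (e : Ed d) (F : Finset (Ed d) → ℝ) :
    EB p {e} F = (1 - p) * F ∅ + p * F {e} := by
  classical
  unfold EB
  have h0 : ({e} : Finset (Ed d)).powerset = {∅, {e}} := by
    ext t
    rw [Finset.mem_powerset, Finset.mem_insert, Finset.mem_singleton, Finset.subset_singleton_iff]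
  have hne : (∅ : Finset (Ed d)) ≠ {e} := (Finset.singleton_ne_empty e).symm
  rw [h0, Finset.sum_pair hne]
  simp

theorem EB_insert {d : ℕ} (p : ℝ) (E : Finset (Ed d)) (e : Ed d) (he : e ∉ E)
    (f : Finset (Ed d) → ℝ) :
    EB p (insert e E) f = (1 - p) * EB p E f + p * EB p E (fun η => f (insert e η)) := by
  classical
  have h1 : Disjoint ({e} : Finset (Ed d)) E := Finset.disjoint_singleton_left.mpr he
  have h2 := EB_union p {e} E h1 f
  have h3 : ({e} : Finset (Ed d)) ∪ E = insert e E := rfl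
  rw [h3, EB_single] at h2
  rw [h2]
  have h4 : EB p E (fun ζ => f (∅ ∪ ζ)) = EB p E f :=
    EB_congr _ _ _ _ fun ζ _ => by rw [Finset.empty_union]
  have h5 : EB p E (fun ζ => f ({e} ∪ ζ)) = EB p E (fun η => f (insert e η)) :=
    EB_congr _ _ _ _ fun ζ _ => rfl
  rw [h4, h5]

theorem EB_nonneg {d : ℕ} (p : ℝ) (h0 : 0 ≤ p) (h1 : p ≤ 1) (E : Finset (Ed d))
    (h : Finset (Ed d) → ℝ) (hh : ∀ b, b ⊆ E → 0 ≤ h b) : 0 ≤ EB p E h := by
  have h2 := EB_mono p h0 h1 E (fun _ => 0) h hh
  rwa [EB_const] at h2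

/-- Opening one edge costs a factor `1 / s`. -/
theorem EB_open_one {d : ℕ} (s : ℝ) (h0 : 0 ≤ s) (h1 : s ≤ 1) (E : Finset (Ed d)) (e : Ed d)
    (he : e ∈ E) (h : Finset (Ed d) → ℝ) (hh : ∀ b, 0 ≤ h b) :
    s * EB s E (fun b => h (insert e b)) ≤ EB s E h := by
  classical
  have h2 : e ∉ E.erase e := Finset.notMem_erase e E
  have h3 : insert e (E.erase e) = E := Finset.insert_erase he
  have h4 := EB_insert s (E.erase e) e h2 h
  have h5 := EB_insert s (E.erase e) e h2 (fun b => h (insert e b))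
  rw [h3] at h4 h5
  have h6 : EB s (E.erase e) (fun η => h (insert e (insert e η))) =
      EB s (E.erase e) (fun η => h (insert e η)) :=
    EB_congr _ _ _ _ fun ζ _ => by rw [Finset.insert_idem]
  rw [h6] at h5
  have h7 : EB s E (fun b => h (insert e b)) = EB s (E.erase e) (fun η => h (insert e η)) := by
    rw [h5]; ring
  rw [h7, h4]
  have h8 := EB_nonneg s h0 h1 (E.erase e) h fun b _ => hh b
  nlinarith [mul_nonneg (sub_nonneg.mpr h1) h8]

/-- Opening a set `J` of edges costs a factor `s ^ (- |J|)`. -/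
theorem EB_open {d : ℕ} (s : ℝ) (h0 : 0 ≤ s) (h1 : s ≤ 1) (E J : Finset (Ed d))
    (hJ : J ⊆ E) (h : Finset (Ed d) → ℝ) (hh : ∀ b, 0 ≤ h b) :
    s ^ J.card * EB s E (fun b => h (b ∪ J)) ≤ EB s E h := by
  classical
  induction J using Finset.induction_on generalizing h with
  | empty => simp
  | insert e J he ih =>
    have h2 : J ⊆ E := (Finset.subset_insert e J).trans hJ
    have h3 : e ∈ E := hJ (Finset.mem_insert_self e J)
    have h4 := ih h2 (fun b => h (insert e b)) (fun b => hh _)
    have h5 := EB_open_one s h0 h1 E e h3 h hh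
    have h6 : EB s E (fun b => h (b ∪ insert e J)) = EB s E (fun b => h (insert e (b ∪ J))) :=
      EB_congr _ _ _ _ fun ζ _ => by rw [Finset.union_insert]
    rw [h6, Finset.card_insert_of_notMem he, pow_succ]
    calc s ^ J.card * s * EB s E (fun b => h (insert e (b ∪ J)))
        = s * (s ^ J.card * EB s E (fun b => h (insert e (b ∪ J)))) := by ring
      _ ≤ s * EB s E (fun b => h (insert e b)) := mul_le_mul_of_nonneg_left h4 h0
      _ ≤ EB s E h := h5

/-- Pivotal chain: if `g` is increasing and opening `J` makes `g` true, then after opening some of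
the edges of `J` another edge of `J` is pivotal. -/
theorem pivot {d : ℕ} (s : ℝ) (h0 : 0 ≤ s) (h1 : s ≤ 1) (E J : Finset (Ed d)) (hJ : J ⊆ E)
    (g : Finset (Ed d) → Prop) (hg : ∀ b b', b ⊆ b' → g b → g b') :
    s ^ J.card * EB s E (fun b => ind (¬ g b ∧ g (b ∪ J))) ≤
      ∑ e ∈ J, EB s E (fun b => ind (g (insert e b) ∧ ¬ g (b.erase e))) := by
  classical
  induction J using Finset.induction_on with
  | empty =>
    have h2 : EB s E (fun b => ind (¬ g b ∧ g (b ∪ ∅))) = EB s E (fun _ => 0) :=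
      EB_congr _ _ _ _ fun b _ => by
        rw [Finset.union_empty]
        exact ind_false fun h => h.1 h.2
    rw [h2, EB_const]
    simp
  | insert e J he ih =>
    have h2 : J ⊆ E := (Finset.subset_insert e J).trans hJ
    have h3 : e ∈ E := hJ (Finset.mem_insert_self e J)
    have h4 := ih h2
    have h5 : EB s E (fun b => ind (¬ g b ∧ g (b ∪ insert e J))) ≤
        EB s E (fun b => ind (¬ g b ∧ g (b ∪ J)) +
          ind (g (insert e (b ∪ J)) ∧ ¬ g ((b ∪ J).erase e))) := by
      refine EB_mono s h0 h1 E _ _ fun b _ => ?_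
      by_cases hb : g (b ∪ J)
      · have h6 : ind (¬ g b ∧ g (b ∪ insert e J)) ≤ ind (¬ g b ∧ g (b ∪ J)) :=
          ind_mono fun h => ⟨h.1, hb⟩
        exact h6.trans (le_add_of_nonneg_right (ind_nonneg _))
      · have h6 : ind (¬ g b ∧ g (b ∪ insert e J)) ≤
            ind (g (insert e (b ∪ J)) ∧ ¬ g ((b ∪ J).erase e)) := by
          refine ind_mono fun h => ⟨?_, fun h7 => hb (hg _ _ (Finset.erase_subset e _) h7)⟩
          have h8 := h.2
          rwa [Finset.union_insert] at h8
        exact h6.trans (le_add_of_nonneg_left (ind_nonneg _))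
    rw [EB_add] at h5
    have h8 := EB_open s h0 h1 E J h2 (fun b => ind (g (insert e b) ∧ ¬ g (b.erase e)))
      fun b => ind_nonneg _
    rw [Finset.sum_insert he, Finset.card_insert_of_notMem he, pow_succ]
    have h9 : 0 ≤ EB s E (fun b => ind (¬ g b ∧ g (b ∪ insert e J))) :=
      EB_nonneg s h0 h1 E _ fun b _ => ind_nonneg _
    have h10 : 0 ≤ s ^ J.card := pow_nonneg h0 _
    have h11 : s ^ J.card * s * EB s E (fun b => ind (¬ g b ∧ g (b ∪ insert e J))) ≤
        s ^ J.card * EB s E (fun b => ind (¬ g b ∧ g (b ∪ insert e J))) :=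
      mul_le_mul_of_nonneg_right (mul_le_of_le_one_right h10 h1) h9
    have h12 := mul_le_mul_of_nonneg_left h5 h10
    rw [mul_add] at h12
    linarith

end Pool.Agent.Glu
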