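import Pool.Agent.Glu.Stmt
import Pool.Agent.Glu.Geo
import Pool.Agent.Glu.Pivot
import Pool.Agent.Glu.Chain
import Pool.Agent.Glu.Num

/-! Block (GL), main file: gluing lemma with cost `exp (δ m)`. -/

set_option autoImplicit false

namespace Pool.Agent.Glu

open Finset Pool.Agent.SRC Pool.Agent.Inv

theorem far_mono {d : ℕ} (n : ℤ) (Y Y' : Set (Ed d)) (h : Y ⊆ Y') (w : Vx d) (hf : Far n Y w) :
    Far n Y' w := by
  obtain ⟨v, h1, h2⟩ := hf
  exact ⟨v, conn_mono h h1, h2⟩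

theorem hcube_sub {d : ℕ} (z : Vx d) (k : Fin d) (R t : ℕ) :
    edg (hcube z k R) ⊆ edg (cube z (R + t)) := by
  have h1 : hcube z k R ⊆ cube z (R + t) := by
    intro y hy
    unfold hcube at hy
    rw [Finset.mem_filter] at hy
    have h2 := hy.1
    unfold cube at h2 ⊢
    rw [Finset.mem_Icc, Pi.le_def, Pi.le_def] at h2 ⊢
    refine ⟨fun i => ?_, fun i => ?_⟩
    · have := h2.1 i
      omega
    · have := h2.2 i
      omega
  intro e he
  rw [mem_edg] at he ⊢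
  exact ⟨h1 he.1, h1 he.2⟩

/-- Edges outside a cube have no boundary in its interior. -/
theorem outer_bd {d : ℕ} (z : Vx d) (r : ℤ) (E ξ : Finset (Ed d))
    (h : ξ ⊆ E \ edg (cube z r)) : Outer z r (bd ξ) := by
  intro y hy
  unfold bd
  rw [Finset.sum_apply]
  refine Finset.sum_eq_zero fun e he => ?_
  have h1 : e ∉ edg (cube z r) := (Finset.mem_sdiff.mp (h he)).2
  have hy0 : y ∈ cube z r := (mem_cube z r y).mpr fun i => (hy i).le
  have hu : ∀ i j : Fin d, |(uv i : Vx d) j| ≤ 1 := by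
    intro i j
    by_cases hij : j = i
    · rw [hij, uv_self]
      simp
    · rw [uv_ne hij]
      simp
  have hne : e.1 ≠ y ∧ tip e ≠ y := by
    constructor
    · rintro rfl
      refine h1 ((mem_edg _ _).mpr ⟨hy0, (mem_cube z r _).mpr fun j => ?_⟩)
      have h2 := hy j
      have h3 := hu e.2 j
      have h4 : tip e j - z j = (e.1 j - z j) + (uv e.2 : Vx d) j := by
        show e.1 j + (uv e.2 : Vx d) j - z j = _
        ring
      rw [h4]
      have := abs_add_le (e.1 j - z j) ((uv e.2 : Vx d) j)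
      omega
    · rintro rfl
      refine h1 ((mem_edg _ _).mpr ⟨(mem_cube z r _).mpr fun j => ?_, hy0⟩)
      have h2 := hy j
      have h3 := hu e.2 j
      have h4 : e.1 j - z j = (tip e j - z j) + -((uv e.2 : Vx d) j) := by
        show e.1 j - z j = e.1 j + (uv e.2 : Vx d) j - z j + -((uv e.2 : Vx d) j)
        ring
      rw [h4]
      have h5 := abs_add_le (tip e j - z j) (-((uv e.2 : Vx d) j))
      rw [abs_neg] at h5
      omega
  unfold bde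
  rw [Pi.add_apply, Pi.single_eq_of_ne hne.1.symm, Pi.single_eq_of_ne hne.2.symm, add_zero]

/-- A fixed plan. -/
theorem plan_le {d : ℕ} (x s : ℝ) (hx : 0 ≤ x) (hs0 : 0 ≤ s) (hs1 : s ≤ 1) (E : Finset (Ed d))
    (n : ℕ) (R t : ℕ) (w w' : Fin d → Vx d) (p : ℝ) (hp : 0 ≤ p) (hc : CrossAt x R t p w w')
    (q : Plan d)
    (h1 : q.ps.Pairwise fun r r' => ∀ y ∈ cube r.z (R + t), y ∉ hcube r'.z r'.k R)
    (h2 : ∀ r ∈ q.ps, edg (cube r.z (R + t)) ⊆ E) (h3 : q.J ⊆ E)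
    (h4 : ∀ ω : Set (Ed d),
      (∀ r ∈ q.ps, conn (ω ∩ ↑(edg (hcube r.z r.k R))) (r.st w) (r.en w' R)) →
      conn (ω ∪ ↑q.J) q.a q.b) :
    p ^ q.ps.length * s ^ q.J.card * EL (loopM x) E 0 (fun η => EB s E (fun b =>
        ind (GG n {y | ∃ r ∈ q.ps, y ∈ cube r.z (R + t)} q.a q.b (↑(η ∪ b) : Set (Ed d))))) ≤
      ∑ e ∈ q.J, EL (loopM x) E 0 (fun η => EB s E (pv n e η)) := by
  classical
  have ha : 0 ≤ (loopM x).a := hx
  have hb : 0 ≤ (loopM x).b := zero_le_one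
  set W : Set (Vx d) := {y | ∃ r ∈ q.ps, y ∈ cube r.z (R + t)} with hW
  set O : Finset (Ed d) → ℝ := fun η => EB s E (fun b =>
    ind (GG n W q.a q.b (↑(η ∪ b) : Set (Ed d)))) with hO
  have hOn : ∀ η, 0 ≤ O η := fun η => EB_nonneg s hs0 hs1 E _ fun b _ => ind_nonneg _
  have hOU : ∀ r ∈ q.ps, ∀ η, O η = O (η \ edg (cube r.z (R + t))) := by
    intro r hr η
    refine EB_congr _ _ _ _ fun b _ => ind_congr ?_
    have hD : ∀ e ∈ (↑(edg (cube r.z (R + t))) : Set (Ed d)), e.1 ∈ W ∧ tip e ∈ W := by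
      intro e he
      rw [Finset.mem_coe, mem_edg] at he
      exact ⟨⟨r, hr, he.1⟩, r, hr, he.2⟩
    rw [GG_off n W q.a q.b (↑(η ∪ b) : Set (Ed d)) _ hD,
      GG_off n W q.a q.b (↑(η \ edg (cube r.z (R + t)) ∪ b) : Set (Ed d)) _ hD]
    have h5 : (↑(η ∪ b) : Set (Ed d)) \ ↑(edg (cube r.z (R + t))) =
        (↑(η \ edg (cube r.z (R + t)) ∪ b) : Set (Ed d)) \ ↑(edg (cube r.z (R + t))) := by
      ext e
      simp only [Finset.coe_union, Finset.coe_sdiff, Set.mem_sdiff, Set.mem_union, Finset.mem_coe]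
      tauto
    rw [h5]
  have h5 := EL_chain (loopM x) ha hb E (fun r : Pc d => edg (cube r.z (R + t)))
    (fun r : Pc d => edg (hcube r.z r.k R))
    (fun r ζ => ind (conn (↑ζ : Set (Ed d)) (r.st w) (r.en w' R)))
    (fun r ζ => ind_nonneg _) p hp 0 q.ps h2 (fun r _ => hcube_sub r.z r.k R t)
    (h1.imp fun {r r'} h => by
      rw [Finset.disjoint_left]
      intro e he he'
      rw [mem_edg] at he he'
      exact h _ he'.1 he.1)
    (fun r _ ξ hξ => by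
      have h6 : (0 : Vx d → ZMod 2) + (loopM x).s • bd ξ = bd ξ := by
        show (0 : Vx d → ZMod 2) + (1 : ZMod 2) • bd ξ = bd ξ
        rw [one_smul, zero_add]
      rw [h6]
      exact hc r (bd ξ) (outer_bd r.z _ E ξ hξ)) O hOn hOU
  have h6 : EL (loopM x) E 0 (fun η => O η * (q.ps.map fun r =>
      ind (conn (↑(η ∩ edg (hcube r.z r.k R)) : Set (Ed d)) (r.st w) (r.en w' R))).prod) ≤
      EL (loopM x) E 0 (fun η => EB s E (fun b => ind (¬ Far n (↑(η ∪ b) : Set (Ed d)) 0 ∧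
        Far n (↑(η ∪ (b ∪ q.J)) : Set (Ed d)) 0))) := by
    refine EL_mono _ ha hb _ _ _ _ fun η _ => ?_
    rw [prod_ind, mul_comm, hO]
    simp only
    rw [← EB_smul]
    refine EB_mono s hs0 hs1 E _ _ fun b _ => ?_
    rw [← ind_and]
    refine ind_mono fun h => ⟨h.2.1, ?_⟩
    have h7 : (↑(η ∪ (b ∪ q.J)) : Set (Ed d)) = ↑(η ∪ b) ∪ ↑q.J := by
      rw [← Finset.union_assoc, Finset.coe_union]
    rw [h7]
    refine GG_far n W q.a q.b _ _ Set.subset_union_left h.2 (h4 _ fun r hr => ?_)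
    refine conn_mono ?_ (h.1 r hr)
    intro e he
    rw [Finset.mem_coe, Finset.mem_inter] at he
    refine ⟨?_, ?_⟩
    · rw [Finset.mem_coe, Finset.mem_union]
      exact Or.inl he.1
    · rw [Finset.mem_coe]
      exact he.2
  have h7 : s ^ q.J.card * EL (loopM x) E 0 (fun η => EB s E (fun b =>
      ind (¬ Far n (↑(η ∪ b) : Set (Ed d)) 0 ∧ Far n (↑(η ∪ (b ∪ q.J)) : Set (Ed d)) 0))) ≤
      ∑ e ∈ q.J, EL (loopM x) E 0 (fun η => EB s E (pv n e η)) := by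
    rw [← EL_smul, ← EL_sum]
    refine EL_mono _ ha hb _ _ _ _ fun η _ => ?_
    have h8 := pivot s hs0 hs1 E q.J h3 (fun b => Far n (↑(η ∪ b) : Set (Ed d)) 0)
      (fun b b' hbb h => far_mono n _ _ (by
        rw [Finset.coe_subset]
        exact Finset.union_subset_union (Finset.Subset.refl η) hbb) _ h)
    exact h8
  have h8 : 0 ≤ s ^ q.J.card := pow_nonneg hs0 _
  calc p ^ q.ps.length * s ^ q.J.card * EL (loopM x) E 0 O
      = s ^ q.J.card * (p ^ q.ps.length * EL (loopM x) E 0 O) := by ring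
    _ ≤ s ^ q.J.card * EL (loopM x) E 0 (fun η => EB s E (fun b =>
        ind (¬ Far n (↑(η ∪ b) : Set (Ed d)) 0 ∧ Far n (↑(η ∪ (b ∪ q.J)) : Set (Ed d)) 0))) :=
        mul_le_mul_of_nonneg_left (h5.trans h6) h8
    _ ≤ _ := h7

/-- The event `Em` gives one of the plans. -/
theorem Em_plan {d : ℕ} (n : ℤ) (v : Vx d) (m : ℕ) (P : Finset (Plan d)) (R t : ℕ)
    (hP : ∀ A B : Set (Vx d), (∃ a ∈ A, a ∈ cube v m) → (∃ b ∈ B, b ∈ cube v m) →
        ∃ p ∈ P, p.a ∈ A ∧ p.b ∈ B ∧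
          ∀ q ∈ p.ps, ∀ y ∈ cube q.z (R + t), ∀ u ∈ A ∪ B, ∃ i, 1 < |y i - u i|)
    (Y : Set (Ed d)) (h : Em n v m Y) :
    ∃ q ∈ P, GG n {y | ∃ r ∈ q.ps, y ∈ cube r.z (R + t)} q.a q.b Y := by
  obtain ⟨h1, ⟨a, ha, ha'⟩, ⟨b, hb, hb'⟩⟩ := h
  obtain ⟨q, hq, h2, h3, h4⟩ := hP {u | conn Y 0 u} {u | BB n Y u} ⟨a, ha', ha⟩ ⟨b, hb', hb⟩
  refine ⟨q, hq, h1, h2, h3, ?_⟩
  rintro u ⟨r, hr, hu⟩
  refine ⟨fun h5 => ?_, fun h5 => ?_⟩
  · obtain ⟨i, hi⟩ := h4 r hr u hu u (Or.inl h5)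
    rw [sub_self, abs_zero] at hi
    exact absurd hi (by norm_num)
  · obtain ⟨i, hi⟩ := h4 r hr u hu u (Or.inr h5)
    rw [sub_self, abs_zero] at hi
    exact absurd hi (by norm_num)

theorem PE_nonneg {d : ℕ} (x s : ℝ) (hx : 0 ≤ x) (hs0 : 0 ≤ s) (hs1 : s ≤ 1)
    (E : Finset (Ed d)) (f : Finset (Ed d) → Finset (Ed d) → ℝ) (hf : ∀ η b, 0 ≤ f η b) :
    0 ≤ PE x s E f :=
  div_nonneg (EL_nonneg _ hx zero_le_one _ _ _ fun η _ =>
    EB_nonneg s hs0 hs1 E _ fun b _ => hf η b) (ZZ_nonneg _ hx zero_le_one _ _)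

theorem PE_mono {d : ℕ} (x s : ℝ) (hx : 0 ≤ x) (hs0 : 0 ≤ s) (hs1 : s ≤ 1)
    (E : Finset (Ed d)) (f g : Finset (Ed d) → Finset (Ed d) → ℝ)
    (h : ∀ η b, f η b ≤ g η b) : PE x s E f ≤ PE x s E g :=
  div_le_div_of_nonneg_right (EL_mono _ hx zero_le_one _ _ _ _ fun η _ =>
    EB_mono s hs0 hs1 E _ _ fun b _ => h η b) (ZZ_nonneg _ hx zero_le_one _ _)

theorem PE_sum {d : ℕ} {ι : Type*} (x s : ℝ) (E : Finset (Ed d)) (J : Finset ι)
    (f : ι → Finset (Ed d) → Finset (Ed d) → ℝ) :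
    PE x s E (fun η b => ∑ i ∈ J, f i η b) = ∑ i ∈ J, PE x s E (f i) := by
  unfold PE
  rw [← Finset.sum_div, ← EL_sum]
  congr 1
  exact EL_congr _ _ _ _ _ fun η _ => EB_sum s E J fun i => f i η

/-- The assembly for fixed `R`, `t`. -/
theorem fixed {d : ℕ} (x s : ℝ) (hx : 0 ≤ x) (hs0 : 0 < s) (hs1 : s ≤ 1) (E : Finset (Ed d))
    (n : ℕ) (R t : ℕ) (w w' : Fin d → Vx d) (p : ℝ) (hp : 0 < p) (hp1 : p ≤ 1)
    (hc : CrossAt x R t p w w') (C : ℕ) (v : Vx d) (m L : ℕ)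
    (hL : ∀ l : ℕ, l * (R + t + 1) ≤ 2 * d * m → l ≤ L)
    (P : Finset (Plan d))
    (h0 : P.card ≤ C * (m + 1) ^ (4 * d))
    (h1 : ∀ p ∈ P, p.ps.length * (R + t + 1) ≤ 2 * d * m ∧ p.J.card ≤ (t + 1) * p.ps.length + C ∧
        (p.ps.Pairwise fun q q' => ∀ y ∈ cube q.z (R + t), y ∉ hcube q'.z q'.k R) ∧
        (∀ q ∈ p.ps, cube q.z (R + t) ⊆ cube v (m + C)) ∧ p.J ⊆ edg (cube v (m + C)) ∧
        ∀ ω : Set (Ed d),
          (∀ q ∈ p.ps, conn (ω ∩ ↑(edg (hcube q.z q.k R))) (q.st w) (q.en w' R)) →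
          conn (ω ∪ ↑p.J) p.a p.b)
    (h2 : ∀ A B : Set (Vx d), (∃ a ∈ A, a ∈ cube v m) → (∃ b ∈ B, b ∈ cube v m) →
        ∃ p ∈ P, p.a ∈ A ∧ p.b ∈ B ∧
          ∀ q ∈ p.ps, ∀ y ∈ cube q.z (R + t), ∀ u ∈ A ∪ B, ∃ i, 1 < |y i - u i|)
    (hE : edg (cube v (m + C)) ⊆ E) :
    p ^ L * s ^ ((t + 1) * L + C) * PE x s E (fun η b => ind (Em n v m (↑(η ∪ b) : Set (Ed d)))) ≤
      (C * (m + 1) ^ (4 * d) : ℕ) * ∑ e ∈ edg (cube v (m + C)), PE x s E (pv n e) := by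
  classical
  have hZ : 0 < ZZ (loopM x) E 0 := lt_of_lt_of_le zero_lt_one (ZZ_zero_ge x hx E)
  set S : ℝ := ∑ e ∈ edg (cube v (m + C)), PE x s E (pv n e) with hS
  have hpv : ∀ e, 0 ≤ PE x s E (pv n e) := fun e =>
    PE_nonneg x s hx hs0.le hs1 E _ fun η b => ind_nonneg _
  have hS0 : 0 ≤ S := Finset.sum_nonneg fun e _ => hpv e
  have h3 : PE x s E (fun η b => ind (Em n v m (↑(η ∪ b) : Set (Ed d)))) ≤
      ∑ q ∈ P, PE x s E (fun η b => ind (GG n {y | ∃ r ∈ q.ps, y ∈ cube r.z (R + t)} q.a q.b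
        (↑(η ∪ b) : Set (Ed d)))) := by
    rw [← PE_sum]
    refine PE_mono x s hx hs0.le hs1 E _ _ fun η b => ?_
    by_cases hE : Em n v m (↑(η ∪ b) : Set (Ed d))
    · obtain ⟨q, hq, h4⟩ := Em_plan n v m P R t h2 _ hE
      rw [ind_true hE, ← ind_true h4]
      exact Finset.single_le_sum (f := fun q : Plan d => ind (GG n
        {y | ∃ r ∈ q.ps, y ∈ cube r.z (R + t)} q.a q.b (↑(η ∪ b) : Set (Ed d))))
        (fun q _ => ind_nonneg _) hq
    · rw [ind_false hE]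
      exact Finset.sum_nonneg fun q _ => ind_nonneg _
  have h4 : ∀ q ∈ P, p ^ L * s ^ ((t + 1) * L + C) *
      PE x s E (fun η b => ind (GG n {y | ∃ r ∈ q.ps, y ∈ cube r.z (R + t)} q.a q.b
        (↑(η ∪ b) : Set (Ed d)))) ≤ S := by
    intro q hq
    obtain ⟨a1, a2, a3, a4, a5, a6⟩ := h1 q hq
    have b1 : q.ps.length ≤ L := hL _ a1
    have b2 : q.J.card ≤ (t + 1) * L + C :=
      a2.trans (Nat.add_le_add_right (Nat.mul_le_mul_left _ b1) _)
    have b3 := plan_le x s hx hs0.le hs1 E n R t w w' p hp.le hc q a3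
      (fun r hr => (Finset.Subset.trans (fun e he => by
        rw [mem_edg] at he ⊢
        exact ⟨a4 r hr he.1, a4 r hr he.2⟩) hE)) (a5.trans hE) a6
    have b4 : p ^ L ≤ p ^ q.ps.length := pow_le_pow_of_le_one hp.le hp1 b1
    have b5 : s ^ ((t + 1) * L + C) ≤ s ^ q.J.card := pow_le_pow_of_le_one hs0.le hs1 b2
    have b6 : p ^ L * s ^ ((t + 1) * L + C) ≤ p ^ q.ps.length * s ^ q.J.card :=
      mul_le_mul b4 b5 (pow_nonneg hs0.le _) (pow_nonneg hp.le _)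
    have b7 : 0 ≤ PE x s E (fun η b => ind (GG n {y | ∃ r ∈ q.ps, y ∈ cube r.z (R + t)} q.a q.b
        (↑(η ∪ b) : Set (Ed d)))) := PE_nonneg x s hx hs0.le hs1 E _ fun η b => ind_nonneg _
    refine (mul_le_mul_of_nonneg_right b6 b7).trans ?_
    have b8 : ∑ e ∈ q.J, PE x s E (pv n e) ≤ S :=
      Finset.sum_le_sum_of_subset_of_nonneg a5 fun e _ _ => hpv e
    refine le_trans ?_ b8
    have b9 := div_le_div_of_nonneg_right b3 hZ.le
    rw [Finset.sum_div] at b9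
    rw [mul_div_assoc] at b9
    exact b9
  have h5 : 0 ≤ p ^ L * s ^ ((t + 1) * L + C) :=
    mul_nonneg (pow_nonneg hp.le _) (pow_nonneg hs0.le _)
  calc p ^ L * s ^ ((t + 1) * L + C) *
      PE x s E (fun η b => ind (Em n v m (↑(η ∪ b) : Set (Ed d))))
      ≤ p ^ L * s ^ ((t + 1) * L + C) * ∑ q ∈ P, PE x s E (fun η b =>
        ind (GG n {y | ∃ r ∈ q.ps, y ∈ cube r.z (R + t)} q.a q.b (↑(η ∪ b) : Set (Ed d)))) :=
        mul_le_mul_of_nonneg_left h3 h5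
    _ = ∑ q ∈ P, p ^ L * s ^ ((t + 1) * L + C) * PE x s E (fun η b =>
        ind (GG n {y | ∃ r ∈ q.ps, y ∈ cube r.z (R + t)} q.a q.b (↑(η ∪ b) : Set (Ed d)))) :=
        Finset.mul_sum _ _ _
    _ ≤ ∑ q ∈ P, S := Finset.sum_le_sum h4
    _ = P.card * S := by rw [Finset.sum_const, nsmul_eq_mul]
    _ ≤ _ := mul_le_mul_of_nonneg_right (by exact_mod_cast h0) hS0

/-- **Gluing lemma.** -/
theorem gl {d : ℕ} (x : ℝ) (hx : 0 ≤ x) (hC : Cross d x) : Gluing d x := by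
  intro a δ ha0 ha1 hδ
  classical
  obtain ⟨C1, h1⟩ := hC
  obtain ⟨κ, hκ0, hκ1, h2⟩ := num d C1 a (δ / 2) ha0 ha1 (half_pos hδ)
  obtain ⟨c, hc, R0, h3⟩ := h1 κ hκ0 hκ1
  obtain ⟨R, t, hR, ht, ht', hp, h4⟩ := h2 c R0 hc
  obtain ⟨w, w', hw, hw', h5⟩ := h3 R t hR ht ht'
  obtain ⟨C, h6⟩ := geo R t w w' hw hw'
  obtain ⟨K, hK, h7⟩ := num_poly (4 * d) (δ / 2) (half_pos hδ)
  set p : ℝ := min 1 (c * ((R : ℝ) + 1)⁻¹ ^ C1) with hpdef
  have hCA : CrossAt x R t p w w' := fun q S hS =>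
    (mul_le_mul_of_nonneg_right (min_le_right _ _) (ZZ_nonneg _ hx zero_le_one _ _)).trans
      (h5 q S hS)
  set D : ℝ := C * K / a ^ C with hD
  have hD0 : 0 ≤ D := by positivity
  refine ⟨max C ⌈D⌉₊, fun s hs hs1 n m v N hN => ?_⟩
  have hs0 : 0 < s := lt_of_lt_of_le ha0 hs
  obtain ⟨P, b1, b2, b3⟩ := h6 v m
  have hsub : edg (cube v ((m : ℤ) + C)) ⊆ edg (cube v ((m : ℤ) + (max C ⌈D⌉₊ : ℕ))) := by
    have h8 : (C : ℤ) ≤ (max C ⌈D⌉₊ : ℕ) := by exact_mod_cast le_max_left _ _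
    have h9 : cube v ((m : ℤ) + C) ⊆ cube v ((m : ℤ) + (max C ⌈D⌉₊ : ℕ)) := by
      intro y hy
      unfold cube at hy ⊢
      rw [Finset.mem_Icc, Pi.le_def, Pi.le_def] at hy ⊢
      refine ⟨fun i => ?_, fun i => ?_⟩
      · have := hy.1 i
        linarith
      · have := hy.2 i
        linarith
    intro e he
    rw [mem_edg] at he ⊢
    exact ⟨h9 he.1, h9 he.2⟩
  have hE : edg (cube v ((m : ℤ) + (max C ⌈D⌉₊ : ℕ))) ⊆ boxE d N := by
    have h9 : cube v ((m : ℤ) + (max C ⌈D⌉₊ : ℕ)) ⊆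
        Finset.Icc (fun _ => -(N : ℤ)) (fun _ => (N : ℤ)) := by
      intro y hy
      unfold cube at hy
      rw [Finset.mem_Icc, Pi.le_def, Pi.le_def] at hy ⊢
      refine ⟨fun i => ?_, fun i => ?_⟩
      · have h10 := hy.1 i
        have h11 := hN i
        have h12 := neg_abs_le (v i)
        linarith
      · have h10 := hy.2 i
        have h11 := hN i
        have h12 := le_abs_self (v i)
        linarith
    intro e he
    unfold boxE bx
    rw [mem_edg] at he ⊢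
    exact ⟨h9 he.1, h9 he.2⟩
  have h8 := fixed x s hx hs0 hs1 (boxE d N) n R t w w' p hp (min_le_left _ _) hCA C v m
    (2 * d * m / (R + t + 1)) (fun l hl => (Nat.le_div_iff_mul_le (Nat.succ_pos _)).mpr hl)
    P b1 b2 b3 (hsub.trans hE)
  set L : ℕ := 2 * d * m / (R + t + 1) with hLdef
  set X : ℝ := PE x s (boxE d N) (fun η b => ind (Em n v m (↑(η ∪ b) : Set (Ed d)))) with hX
  set S : ℝ := ∑ e ∈ edg (cube v ((m : ℤ) + C)), PE x s (boxE d N) (pv n e) with hS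
  have hpv : ∀ e, 0 ≤ PE x s (boxE d N) (pv n e) := fun e =>
    PE_nonneg x s hx hs0.le hs1 _ _ fun η b => ind_nonneg _
  have hS0 : 0 ≤ S := Finset.sum_nonneg fun e _ => hpv e
  have hX0 : 0 ≤ X := PE_nonneg x s hx hs0.le hs1 _ _ fun η b => ind_nonneg _
  have hL : L * (R + t + 1) ≤ 2 * d * m := Nat.div_mul_le_self _ _
  have h9 := h4 m L hL
  have h10 : Real.exp (-(δ / 2 * m)) * a ^ C ≤ p ^ L * s ^ ((t + 1) * L + C) := by
    rw [pow_add, ← mul_assoc]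
    refine mul_le_mul (h9.trans ?_) (pow_le_pow_left₀ ha0.le hs C) (by positivity) (by positivity)
    exact mul_le_mul_of_nonneg_left (pow_le_pow_left₀ ha0.le hs _) (by positivity)
  have h11 : Real.exp (-(δ / 2 * m)) * a ^ C * X ≤ C * (K * Real.exp (δ / 2 * m)) * S := by
    refine (mul_le_mul_of_nonneg_right h10 hX0).trans (h8.trans ?_)
    refine mul_le_mul_of_nonneg_right ?_ hS0
    push_cast
    exact mul_le_mul_of_nonneg_left (h7 m) (Nat.cast_nonneg C)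
  have h12 : Real.exp (-(δ / 2 * m)) * Real.exp (δ / 2 * m) = 1 := by
    rw [← Real.exp_add, neg_add_cancel, Real.exp_zero]
  have h13 : Real.exp (δ / 2 * m) * Real.exp (δ / 2 * m) = Real.exp (δ * m) := by
    rw [← Real.exp_add]
    congr 1
    ring
  have h14 : X ≤ D * Real.exp (δ * m) * S := by
    have h15 : 0 ≤ Real.exp (δ / 2 * m) / a ^ C := by positivity
    have h16 := mul_le_mul_of_nonneg_left h11 h15
    have h17 : Real.exp (δ / 2 * m) / a ^ C * (Real.exp (-(δ / 2 * m)) * a ^ C * X) = X := by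
      have h18 : a ^ C ≠ 0 := by positivity
      calc Real.exp (δ / 2 * m) / a ^ C * (Real.exp (-(δ / 2 * m)) * a ^ C * X)
          = (Real.exp (-(δ / 2 * m)) * Real.exp (δ / 2 * m)) * (a ^ C / a ^ C) * X := by ring
        _ = X := by rw [h12, div_self h18, one_mul, one_mul]
    rw [h17] at h16
    refine h16.trans (le_of_eq ?_)
    rw [hD, ← h13]
    ring
  refine h14.trans ?_
  have h15 : S ≤ ∑ e ∈ edg (cube v ((m : ℤ) + (max C ⌈D⌉₊ : ℕ))), PE x s (boxE d N) (pv n e) :=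
    Finset.sum_le_sum_of_subset_of_nonneg hsub fun e _ _ => hpv e
  have h16 : D ≤ ((max C ⌈D⌉₊ : ℕ) : ℝ) := by
    refine (Nat.le_ceil D).trans ?_
    exact_mod_cast le_max_right _ _
  exact mul_le_mul (mul_le_mul_of_nonneg_right h16 (Real.exp_pos _).le) h15 hS0 (by positivity)

end Pool.Agent.Glu
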