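import Pool.Agent.SRC.Bern

/-! Gluing lemma: automorphisms of the lattice (translations, reflections, permutations of the
coordinates) and their action on the loop model. -/

set_option autoImplicit false

namespace Pool.Agent.Glu

open Finset Pool.Agent.SRC

variable {d : ℕ}

/-- A lattice automorphism: bijections of the vertices and of the edges, compatible with the
ends. -/
structure Aut (d : ℕ) where
  φ : Vx d ≃ Vx d
  ψ : Ed d ≃ Ed d
  ends : ∀ e, ((ψ e).1 = φ e.1 ∧ tip (ψ e) = φ (tip e)) ∨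
    ((ψ e).1 = φ (tip e) ∧ tip (ψ e) = φ e.1)

theorem adj_iff (ω : Set (Ed d)) (u v : Vx d) :
    adj ω u v ↔ ∃ e ∈ ω, (e.1 = u ∧ tip e = v) ∨ (e.1 = v ∧ tip e = u) := by
  constructor
  · rintro ⟨i, hi | hi⟩
    · exact ⟨(u, i), hi.1, Or.inl ⟨rfl, hi.2.symm⟩⟩
    · exact ⟨(v, i), hi.1, Or.inr ⟨rfl, hi.2.symm⟩⟩
  · rintro ⟨e, he, h | h⟩
    · refine ⟨e.2, Or.inl ⟨?_, ?_⟩⟩
      · rw [← h.1]
        exact he
      · rw [← h.2, ← h.1]
        rfl
    · refine ⟨e.2, Or.inr ⟨?_, ?_⟩⟩
      · rw [← h.1]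
        exact he
      · rw [← h.2, ← h.1]
        rfl

theorem Aut.bde_eq (g : Aut d) (e : Ed d) (v : Vx d) : bde (g.ψ e) (g.φ v) = bde e v := by
  have h1 : ∀ a : Vx d, (Pi.single (g.φ a) (1 : ZMod 2) : Vx d → ZMod 2) (g.φ v) =
      (Pi.single a (1 : ZMod 2) : Vx d → ZMod 2) v := by
    intro a
    by_cases h : v = a
    · subst h
      rw [Pi.single_eq_same, Pi.single_eq_same]
    · rw [Pi.single_eq_of_ne h, Pi.single_eq_of_ne]
      exact fun h2 => h (g.φ.injective h2)
  unfold bde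
  rw [Pi.add_apply, Pi.add_apply]
  rcases g.ends e with h | h
  · rw [h.1, h.2, h1, h1]
  · rw [h.1, h.2, h1, h1, add_comm]

theorem Aut.bd_eq (g : Aut d) (η : Finset (Ed d)) (v : Vx d) :
    bd (η.image g.ψ) (g.φ v) = bd η v := by
  unfold bd
  rw [Finset.sum_image fun a _ b _ h => g.ψ.injective h, Finset.sum_apply, Finset.sum_apply]
  exact Finset.sum_congr rfl fun e _ => g.bde_eq e v

theorem Aut.EL_eq (g : Aut d) (m : Mdl) (E : Finset (Ed d)) (A : Vx d → ZMod 2)
    (f : Finset (Ed d) → ℝ) :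
    EL m (E.image g.ψ) A f = EL m E (fun v => A (g.φ v)) (fun η => f (η.image g.ψ)) := by
  classical
  unfold EL
  have h1 : (E.image g.ψ).powerset = E.powerset.image (fun η => η.image g.ψ) := by
    ext t
    rw [Finset.mem_powerset, Finset.mem_image]
    constructor
    · intro h
      obtain ⟨s, hs, rfl⟩ := Finset.subset_image_iff.mp h
      exact ⟨s, Finset.mem_powerset.mpr (by exact_mod_cast hs), rfl⟩
    · rintro ⟨s, hs, rfl⟩
      exact Finset.image_subset_image (Finset.mem_powerset.mp hs)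
  rw [h1, Finset.sum_image (fun η _ η' _ h => Finset.image_injective g.ψ.injective h)]
  refine Finset.sum_congr rfl fun η _ => ?_
  rw [Finset.card_image_of_injective _ g.ψ.injective, ← Finset.image_sdiff _ _ g.ψ.injective,
    Finset.card_image_of_injective _ g.ψ.injective]
  have h2 : (m.s • bd (η.image g.ψ) = A) ↔ (m.s • bd η = fun v => A (g.φ v)) := by
    constructor
    · intro h
      funext v
      rw [← h]
      show m.s * bd η v = m.s * bd (η.image g.ψ) (g.φ v)
      rw [g.bd_eq]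
    · intro h
      funext v
      obtain ⟨w, rfl⟩ := g.φ.surjective v
      have h3 := congrFun h w
      rw [← h3]
      show m.s * bd (η.image g.ψ) (g.φ w) = m.s * bd η w
      rw [g.bd_eq]
  rw [ind_congr h2]

theorem Aut.ZZ_eq (g : Aut d) (m : Mdl) (E : Finset (Ed d)) (A : Vx d → ZMod 2) :
    ZZ m (E.image g.ψ) A = ZZ m E (fun v => A (g.φ v)) := by
  unfold ZZ
  exact g.EL_eq m E A _

theorem Aut.adj_iff (g : Aut d) (ω : Set (Ed d)) (u v : Vx d) :
    adj (g.ψ '' ω) (g.φ u) (g.φ v) ↔ adj ω u v := by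
  rw [Glu.adj_iff, Glu.adj_iff]
  constructor
  · rintro ⟨e', ⟨e, he, rfl⟩, h⟩
    refine ⟨e, he, ?_⟩
    rcases g.ends e with h1 | h1
    · rw [h1.1, h1.2] at h
      simpa using h
    · rw [h1.1, h1.2] at h
      rcases h with h | h
      · exact Or.inr ⟨g.φ.injective h.2, g.φ.injective h.1⟩
      · exact Or.inl ⟨g.φ.injective h.2, g.φ.injective h.1⟩
  · rintro ⟨e, he, h⟩
    refine ⟨g.ψ e, ⟨e, he, rfl⟩, ?_⟩
    rcases g.ends e with h1 | h1
    · rw [h1.1, h1.2]
      simpa using h
    · rw [h1.1, h1.2]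
      rcases h with h | h
      · exact Or.inr ⟨by rw [h.2], by rw [h.1]⟩
      · exact Or.inl ⟨by rw [h.2], by rw [h.1]⟩

theorem Aut.conn_iff (g : Aut d) (ω : Set (Ed d)) (u v : Vx d) :
    conn (g.ψ '' ω) (g.φ u) (g.φ v) ↔ conn ω u v := by
  constructor
  · have key : ∀ x y : Vx d, conn (g.ψ '' ω) x y → conn ω (g.φ.symm x) (g.φ.symm y) := by
      intro x y h
      unfold conn at *
      induction h with
      | refl => exact Relation.ReflTransGen.refl
      | tail _ h2 ih =>
        refine Relation.ReflTransGen.tail ih ?_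
        rw [← g.adj_iff, Equiv.apply_symm_apply, Equiv.apply_symm_apply]
        exact h2
    intro h
    have h1 := key _ _ h
    rw [Equiv.symm_apply_apply, Equiv.symm_apply_apply] at h1
    exact h1
  · intro h
    unfold conn at *
    induction h with
    | refl => exact Relation.ReflTransGen.refl
    | tail _ h2 ih => exact Relation.ReflTransGen.tail ih ((g.adj_iff ω _ _).mpr h2)

theorem Aut.mem_edg (g : Aut d) (S : Finset (Vx d)) (e : Ed d) :
    g.ψ e ∈ edg (S.image g.φ) ↔ e ∈ edg S := by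
  have h1 : ∀ v : Vx d, g.φ v ∈ S.image g.φ ↔ v ∈ S := by
    intro v
    rw [Finset.mem_image]
    constructor
    · rintro ⟨w, hw, h⟩
      rw [← g.φ.injective h]
      exact hw
    · intro h
      exact ⟨v, h, rfl⟩
  rw [SRC.mem_edg, SRC.mem_edg]
  rcases g.ends e with h | h
  · rw [h.1, h.2, h1, h1]
  · rw [h.1, h.2, h1, h1, and_comm]

theorem Aut.edg_eq (g : Aut d) (S : Finset (Vx d)) :
    edg (S.image g.φ) = (edg S).image g.ψ := by
  ext e'
  obtain ⟨e, rfl⟩ := g.ψ.surjective e'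
  rw [g.mem_edg, Finset.mem_image]
  constructor
  · intro h
    exact ⟨e, h, rfl⟩
  · rintro ⟨e1, h1, h2⟩
    rw [← g.ψ.injective h2]
    exact h1

/-- Transfer of connection probabilities. -/
theorem Aut.EL_conn (g : Aut d) (m : Mdl) (U V : Finset (Ed d)) (u u' : Vx d)
    (S : Vx d → ZMod 2) :
    EL m (U.image g.ψ) S (fun η => ind (conn (↑(η ∩ V.image g.ψ)) (g.φ u) (g.φ u'))) =
      EL m U (fun v => S (g.φ v)) (fun η => ind (conn (↑(η ∩ V)) u u')) := by
  classical
  rw [g.EL_eq]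
  refine EL_congr _ _ _ _ _ fun η _ => ?_
  rw [← Finset.image_inter _ _ g.ψ.injective, Finset.coe_image]
  exact ind_congr (g.conn_iff _ _ _)

theorem Aut.transfer (g : Aut d) (m : Mdl) (U V : Finset (Ed d)) (p : ℝ) (u u' : Vx d)
    (S : Vx d → ZMod 2)
    (h : p * ZZ m U (fun v => S (g.φ v)) ≤
      EL m U (fun v => S (g.φ v)) (fun η => ind (conn (↑(η ∩ V)) u u'))) :
    p * ZZ m (U.image g.ψ) S ≤
      EL m (U.image g.ψ) S (fun η => ind (conn (↑(η ∩ V.image g.ψ)) (g.φ u) (g.φ u'))) := by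
  rw [g.EL_conn, g.ZZ_eq]
  exact h

/-- Translations. -/
def shift (a : Vx d) : Aut d where
  φ := Equiv.addRight a
  ψ := ⟨fun e => (e.1 + a, e.2), fun e => (e.1 - a, e.2), fun e => by simp, fun e => by simp⟩
  ends := fun e => Or.inl ⟨rfl, by
    show e.1 + a + uv e.2 = e.1 + uv e.2 + a
    abel⟩

@[simp] theorem shift_φ (a v : Vx d) : (shift a).φ v = v + a := rfl
@[simp] theorem shift_ψ (a : Vx d) (e : Ed d) : (shift a).ψ e = (e.1 + a, e.2) := rfl

/-- Change of sign of the coordinates in `s`. -/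
def fl1 (s : Fin d → Bool) (v : Vx d) : Vx d := fun j => if s j then - v j else v j

theorem fl1_fl1 (s : Fin d → Bool) (v : Vx d) : fl1 s (fl1 s v) = v := by
  funext j
  unfold fl1
  cases s j <;> simp

theorem fl1_add (s : Fin d → Bool) (v w : Vx d) : fl1 s (v + w) = fl1 s v + fl1 s w := by
  funext j
  unfold fl1
  rw [Pi.add_apply, Pi.add_apply]
  cases s j
  · simp
  · simp only [if_true]
    ring

theorem fl1_sub (s : Fin d → Bool) (v w : Vx d) : fl1 s (v - w) = fl1 s v - fl1 s w := by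
  funext j
  unfold fl1
  rw [Pi.sub_apply, Pi.sub_apply]
  cases s j
  · simp
  · simp only [if_true]
    ring

theorem fl1_uv (s : Fin d → Bool) (i : Fin d) : fl1 s (uv i) = if s i then - uv i else uv i := by
  funext j
  unfold fl1 uv
  by_cases h : j = i
  · subst h
    cases hs : s j <;> simp
  · cases hs : s j <;> cases hs' : s i <;> simp [Pi.single_eq_of_ne h]

/-- Reflection of an edge. -/
def fl2 (s : Fin d → Bool) (e : Ed d) : Ed d :=
  if s e.2 then (fl1 s e.1 - uv e.2, e.2) else (fl1 s e.1, e.2)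

theorem fl2_fl2 (s : Fin d → Bool) (e : Ed d) : fl2 s (fl2 s e) = e := by
  unfold fl2
  by_cases h : s e.2 = true
  · simp only [h, if_true]
    rw [fl1_sub, fl1_fl1, fl1_uv, if_pos h]
    refine Prod.ext ?_ rfl
    show e.1 - - uv e.2 - uv e.2 = e.1
    abel
  · have h' : s e.2 = false := by simpa using h
    simp only [h', Bool.false_eq_true, if_false]
    rw [fl1_fl1]

/-- Reflections. -/
def flip (s : Fin d → Bool) : Aut d where
  φ := ⟨fl1 s, fl1 s, fl1_fl1 s, fl1_fl1 s⟩
  ψ := ⟨fl2 s, fl2 s, fl2_fl2 s, fl2_fl2 s⟩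
  ends := fun e => by
    by_cases h : s e.2 = true
    · right
      refine ⟨?_, ?_⟩
      · show (fl2 s e).1 = fl1 s (tip e)
        unfold fl2 tip
        rw [if_pos h, fl1_add, fl1_uv, if_pos h]
        show fl1 s e.1 - uv e.2 = fl1 s e.1 + - uv e.2
        abel
      · show (fl2 s e).1 + uv (fl2 s e).2 = fl1 s e.1
        unfold fl2
        rw [if_pos h]
        show fl1 s e.1 - uv e.2 + uv e.2 = fl1 s e.1
        abel
    · left
      refine ⟨?_, ?_⟩
      · show (fl2 s e).1 = fl1 s e.1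
        unfold fl2
        rw [if_neg h]
      · show (fl2 s e).1 + uv (fl2 s e).2 = fl1 s (e.1 + uv e.2)
        unfold fl2
        rw [if_neg h, fl1_add, fl1_uv, if_neg h]

@[simp] theorem flip_φ (s : Fin d → Bool) (v : Vx d) : (flip s).φ v = fl1 s v := rfl
@[simp] theorem flip_ψ (s : Fin d → Bool) (e : Ed d) : (flip s).ψ e = fl2 s e := rfl

/-- Permutations of the coordinates. -/
def perm (π : Equiv.Perm (Fin d)) : Aut d where
  φ := ⟨fun v j => v (π.symm j), fun v j => v (π j), fun v => by funext j; simp,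
    fun v => by funext j; simp⟩
  ψ := ⟨fun e => (fun j => e.1 (π.symm j), π e.2), fun e => (fun j => e.1 (π j), π.symm e.2),
    fun e => by refine Prod.ext ?_ ?_ <;> simp, fun e => by refine Prod.ext ?_ ?_ <;> simp⟩
  ends := fun e => Or.inl ⟨rfl, by
    show (fun j => e.1 (π.symm j)) + uv (π e.2) = fun j => (e.1 + uv e.2) (π.symm j)
    funext j
    rw [Pi.add_apply, Pi.add_apply]
    congr 1
    unfold uv
    by_cases h : j = π e.2
    · subst h
      simp
    · rw [Pi.single_eq_of_ne h, Pi.single_eq_of_ne]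
      intro h2
      apply h
      rw [← h2, Equiv.apply_symm_apply]⟩

@[simp] theorem perm_φ (π : Equiv.Perm (Fin d)) (v : Vx d) (j : Fin d) :
    (perm π).φ v j = v (π.symm j) := rfl

end Pool.Agent.Glu
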