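import Pool.Agent.Glu.Shift
import Pool.Agent.Glu.Geo

/-! Gluing lemma: images of cubes and half cubes under the automorphisms; transfer of the crossing
bound from the standard piece to every piece. -/

set_option autoImplicit false

namespace Pool.Agent.Glu

open Finset Pool.Agent.SRC

variable {d : ℕ}

theorem mem_image_φ (g : Aut d) (S : Finset (Vx d)) (v : Vx d) :
    g.φ v ∈ S.image g.φ ↔ v ∈ S := by
  rw [Finset.mem_image]
  constructor
  · rintro ⟨w, hw, h⟩
    rw [← g.φ.injective h]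
    exact hw
  · intro h
    exact ⟨v, h, rfl⟩

/-- Image of a finite set, from the description of membership. -/
theorem image_eq (g : Aut d) (S T : Finset (Vx d)) (h : ∀ v, g.φ v ∈ T ↔ v ∈ S) :
    S.image g.φ = T := by
  ext w
  obtain ⟨v, rfl⟩ := g.φ.surjective w
  rw [mem_image_φ, h]

theorem cube_shift (z : Vx d) (r : ℤ) : (cube 0 r).image (shift z).φ = cube z r := by
  refine image_eq _ _ _ fun v => ?_
  rw [mem_cube, mem_cube]
  simp

theorem hcube_shift (z : Vx d) (k : Fin d) (r : ℤ) :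
    (hcube 0 k r).image (shift z).φ = hcube z k r := by
  refine image_eq _ _ _ fun v => ?_
  rw [mem_hcube, mem_hcube, mem_cube, mem_cube]
  simp

theorem cube_flip (s : Fin d → Bool) (r : ℤ) : (cube 0 r).image (flip s).φ = cube 0 r := by
  refine image_eq _ _ _ fun v => ?_
  rw [mem_cube, mem_cube]
  refine forall_congr' fun i => ?_
  rw [flip_φ]
  unfold fl1
  cases s i <;> simp

theorem hcube_flip (s : Fin d → Bool) (k : Fin d) (hk : s k = false) (r : ℤ) :
    (hcube 0 k r).image (flip s).φ = hcube 0 k r := by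
  refine image_eq _ _ _ fun v => ?_
  rw [mem_hcube, mem_hcube]
  refine and_congr ?_ ?_
  · rw [mem_cube, mem_cube]
    refine forall_congr' fun i => ?_
    rw [flip_φ]
    unfold fl1
    cases s i <;> simp
  · rw [flip_φ]
    unfold fl1
    rw [hk]
    simp

theorem cube_perm (π : Equiv.Perm (Fin d)) (r : ℤ) : (cube 0 r).image (perm π).φ = cube 0 r := by
  refine image_eq _ _ _ fun v => ?_
  rw [mem_cube, mem_cube]
  constructor
  · intro h i
    have h1 := h (π i)
    rw [perm_φ, Equiv.symm_apply_apply] at h1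
    exact h1
  · intro h i
    exact h (π.symm i)

theorem hcube_perm (π : Equiv.Perm (Fin d)) (k : Fin d) (r : ℤ) :
    (hcube 0 k r).image (perm π).φ = hcube 0 (π k) r := by
  refine image_eq _ _ _ fun v => ?_
  rw [mem_hcube, mem_hcube]
  refine and_congr ?_ ?_
  · rw [mem_cube, mem_cube]
    constructor
    · intro h i
      have h1 := h (π i)
      rw [perm_φ, Equiv.symm_apply_apply] at h1
      exact h1
    · intro h i
      exact h (π.symm i)
  · rw [perm_φ, Equiv.symm_apply_apply]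
    exact Iff.rfl

theorem fl1_smul_uv (s : Fin d → Bool) (k : Fin d) (hk : s k = false) (c : ℤ) :
    fl1 s (c • uv k) = c • uv k := by
  funext j
  unfold fl1
  by_cases h : j = k
  · subst h
    rw [hk]
    simp
  · have h1 : (c • uv k : Vx d) j = 0 := by
      rw [Pi.smul_apply, uv_ne h, smul_zero]
    rw [h1]
    simp

/-- The lateral reflection. -/
def lat (k : Fin d) : Fin d → Bool := fun j => !decide (j = k)

theorem lat_self (k : Fin d) : lat k k = false := by simp [lat]

theorem fl1_lat (k : Fin d) (u : Vx d) (hu : u k = 0) : fl1 (lat k) u = -u := by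
  funext j
  unfold fl1 lat
  by_cases h : j = k
  · subst h
    simp [hu]
  · simp [h]

/-- Crossing bound for the cube of centre `z`, from the one of centre `0`. -/
theorem piece_shift (m : Mdl) (r R : ℤ) (k : Fin d) (p : ℝ) (u u' z : Vx d)
    (h : ∀ S : Vx d → ZMod 2, (∀ v ∈ cube 0 (r - 1), S v = 0) →
      p * ZZ m (edg (cube 0 r)) S ≤
        EL m (edg (cube 0 r)) S (fun η => ind (conn (↑(η ∩ edg (hcube 0 k R))) u u')))
    (S : Vx d → ZMod 2) (hS : ∀ v ∈ cube z (r - 1), S v = 0) :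
    p * ZZ m (edg (cube z r)) S ≤
      EL m (edg (cube z r)) S
        (fun η => ind (conn (↑(η ∩ edg (hcube z k R))) (z + u) (z + u'))) := by
  have h1 := (shift z).transfer m (edg (cube 0 r)) (edg (hcube 0 k R)) p u u' S
    (h _ fun v hv => hS _ (by
      rw [← cube_shift z]
      exact (mem_image_φ _ _ _).2 hv))
  rw [← Aut.edg_eq, ← Aut.edg_eq, cube_shift, hcube_shift, shift_φ, shift_φ] at h1
  rw [add_comm z u, add_comm z u']
  exact h1

/-- Crossing bound for the laterally reflected piece. -/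
theorem piece_flip (m : Mdl) (r R : ℤ) (k : Fin d) (p : ℝ) (w w' : Vx d) (hw : w k = 0)
    (hw' : w' k = 0)
    (h : ∀ S : Vx d → ZMod 2, (∀ v ∈ cube 0 (r - 1), S v = 0) →
      p * ZZ m (edg (cube 0 r)) S ≤
        EL m (edg (cube 0 r)) S
          (fun η => ind (conn (↑(η ∩ edg (hcube 0 k R))) w (R • uv k + w'))))
    (S : Vx d → ZMod 2) (hS : ∀ v ∈ cube 0 (r - 1), S v = 0) :
    p * ZZ m (edg (cube 0 r)) S ≤
      EL m (edg (cube 0 r)) S
        (fun η => ind (conn (↑(η ∩ edg (hcube 0 k R))) (-w) (R • uv k + -w'))) := by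
  have h1 := (flip (lat k)).transfer m (edg (cube 0 r)) (edg (hcube 0 k R)) p w
    (R • uv k + w') S (h _ fun v hv => hS _ (by
      rw [← cube_flip (lat k)]
      exact (mem_image_φ _ _ _).2 hv))
  rw [← Aut.edg_eq, ← Aut.edg_eq, cube_flip, hcube_flip (lat k) k (lat_self k), flip_φ, flip_φ,
    fl1_add, fl1_smul_uv (lat k) k (lat_self k), fl1_lat k w hw, fl1_lat k w' hw'] at h1
  exact h1

/-- (y3), (y4): the crossing bound for every piece. -/
theorem piece (m : Mdl) (r : ℤ) (R : ℕ) (p : ℝ) (w w' : Fin d → Vx d) (hw : ∀ k, w k k = 0)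
    (hw' : ∀ k, w' k k = 0)
    (h : ∀ (k : Fin d) (S : Vx d → ZMod 2), (∀ v ∈ cube 0 (r - 1), S v = 0) →
      p * ZZ m (edg (cube 0 r)) S ≤
        EL m (edg (cube 0 r)) S
          (fun η => ind (conn (↑(η ∩ edg (hcube 0 k R))) (w k) ((R : ℤ) • uv k + w' k))))
    (q : Pc d) (S : Vx d → ZMod 2) (hS : ∀ v ∈ cube q.z (r - 1), S v = 0) :
    p * ZZ m (edg (cube q.z r)) S ≤
      EL m (edg (cube q.z r)) S
        (fun η => ind (conn (↑(η ∩ edg (hcube q.z q.k R))) (q.st w) (q.en w' R))) := by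
  have h1 : Pc.st w q = q.z + sg q.s (w q.k) := rfl
  have h2 : Pc.en w' R q = q.z + ((R : ℤ) • uv q.k + sg q.s (w' q.k)) := by
    unfold Pc.en
    rw [add_assoc]
  rw [h1, h2]
  refine piece_shift m r R q.k p _ _ q.z ?_ S hS
  unfold sg
  cases q.s
  · simp only [Bool.false_eq_true, if_false]
    exact h q.k
  · simp only [if_true]
    exact piece_flip m r R q.k p (w q.k) (w' q.k) (hw _) (hw' _) (h q.k)

/-- Change of the direction by a permutation of the coordinates. -/
theorem piece_perm (m : Mdl) (r R : ℤ) (k : Fin d) (π : Equiv.Perm (Fin d)) (p : ℝ)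
    (w w' : Vx d)
    (h : ∀ S : Vx d → ZMod 2, (∀ v ∈ cube 0 (r - 1), S v = 0) →
      p * ZZ m (edg (cube 0 r)) S ≤
        EL m (edg (cube 0 r)) S
          (fun η => ind (conn (↑(η ∩ edg (hcube 0 k R))) w (R • uv k + w'))))
    (S : Vx d → ZMod 2) (hS : ∀ v ∈ cube 0 (r - 1), S v = 0) :
    p * ZZ m (edg (cube 0 r)) S ≤
      EL m (edg (cube 0 r)) S
        (fun η => ind (conn (↑(η ∩ edg (hcube 0 (π k) R))) ((perm π).φ w)
          (R • uv (π k) + (perm π).φ w'))) := by
  have h1 := (perm π).transfer m (edg (cube 0 r)) (edg (hcube 0 k R)) p w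
    (R • uv k + w') S (h _ fun v hv => hS _ (by
      rw [← cube_perm π]
      exact (mem_image_φ _ _ _).2 hv))
  rw [← Aut.edg_eq, ← Aut.edg_eq, cube_perm, hcube_perm] at h1
  have h2 : (perm π).φ (R • uv k + w') = R • uv (π k) + (perm π).φ w' := by
    funext j
    rw [perm_φ, Pi.add_apply, Pi.add_apply, perm_φ, Pi.smul_apply, Pi.smul_apply]
    congr 2
    by_cases hj : j = π k
    · subst hj
      rw [Equiv.symm_apply_apply, uv_self, uv_self]
    · rw [uv_ne hj, uv_ne]
      intro h3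
      apply hj
      rw [← h3, Equiv.apply_symm_apply]
  rw [h2] at h1
  exact h1

/-- One crossing in one direction gives all pieces. -/
theorem piece_all (m : Mdl) (r : ℤ) (R : ℕ) (k : Fin d) (p : ℝ) (w w' : Vx d) (hw : w k = 0)
    (hw' : w' k = 0) (hwR : ∀ j, |w j| ≤ R) (hwR' : ∀ j, |w' j| ≤ R)
    (h : ∀ S : Vx d → ZMod 2, (∀ v ∈ cube 0 (r - 1), S v = 0) →
      p * ZZ m (edg (cube 0 r)) S ≤
        EL m (edg (cube 0 r)) S
          (fun η => ind (conn (↑(η ∩ edg (hcube 0 k R))) w ((R : ℤ) • uv k + w')))) :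
    ∃ W W' : Fin d → Vx d, (∀ i, W i i = 0 ∧ ∀ j, |W i j| ≤ R) ∧
      (∀ i, W' i i = 0 ∧ ∀ j, |W' i j| ≤ R) ∧
      ∀ (q : Pc d) (S : Vx d → ZMod 2), (∀ v ∈ cube q.z (r - 1), S v = 0) →
        p * ZZ m (edg (cube q.z r)) S ≤
          EL m (edg (cube q.z r)) S
            (fun η => ind (conn (↑(η ∩ edg (hcube q.z q.k R))) (q.st W) (q.en W' R))) := by
  have h1 : ∀ i : Fin d, (Equiv.swap k i).symm i = k := by
    intro i
    rw [Equiv.symm_swap, Equiv.swap_apply_right]
  refine ⟨fun i => (perm (Equiv.swap k i)).φ w, fun i => (perm (Equiv.swap k i)).φ w',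
    fun i => ⟨?_, fun j => ?_⟩, fun i => ⟨?_, fun j => ?_⟩, ?_⟩
  · show w ((Equiv.swap k i).symm i) = 0
    rw [h1, hw]
  · exact hwR ((Equiv.swap k i).symm j)
  · show w' ((Equiv.swap k i).symm i) = 0
    rw [h1, hw']
  · exact hwR' ((Equiv.swap k i).symm j)
  · refine piece m r R p _ _ (fun i => ?_) (fun i => ?_) fun i S hS => ?_
    · show w ((Equiv.swap k i).symm i) = 0
      rw [h1, hw]
    · show w' ((Equiv.swap k i).symm i) = 0
      rw [h1, hw']
    · have h2 := piece_perm m r R k (Equiv.swap k i) p w w' h S hS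
      rw [Equiv.swap_apply_left] at h2
      exact h2

end Pool.Agent.Glu
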